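import Pool.Agent.Q1.RS.UdzD

/-!
# From the logarithm of the length of the window to the logarithm of the argument
-/

set_option autoImplicit false

namespace Pool.Agent.Q1.RS

open Finset MeasureTheory Filter Topology Set

open Classical in
theorem udz_of_log {Y E : ℤ → ℝ} {P : ℤ → Prop} {κ : ℝ} (hE : ∀ t, 0 ≤ E t)
    (H : ∀ (δ ε : ℝ) (L : ℕ), 0 < δ → 0 < ε → ∃ M₀ : ℕ, ∀ (N : ℤ) (M : ℕ), M₀ ≤ M →
      |N| ≤ (M : ℤ) ^ L → (((Finset.Ioc N (N + (M : ℤ))).filter (fun t => ¬ (P t ∧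
        Y t ≤ (Real.log M) ^ (δ - κ) * E t))).card : ℝ) ≤ ε * M)
    {η : ℝ} (hη : 0 < η) (hηκ : η < κ) {B : Set ℤ}
    (hB : ∀ t ∈ B, ¬ (P t ∧ Y t ≤ (Real.log (|(t : ℝ)| + 2)) ^ (-η) * E t)) : UDZ B := by
  intro L ε hε
  set δ : ℝ := (κ - η) / 2 with hδ
  have hδ0 : 0 < δ := by rw [hδ]; linarith
  obtain ⟨M₀, hM₀⟩ := H δ ε L hδ0 hε
  have t1 : ∀ᶠ M : ℕ in atTop, ((L : ℝ) + 2) ^ η ≤ (Real.log M) ^ δ :=
    (((tendsto_rpow_atTop hδ0).comp Real.tendsto_log_atTop).comp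
      tendsto_natCast_atTop_atTop).eventually_ge_atTop _
  obtain ⟨M₁, hM₁⟩ := eventually_atTop.1 t1
  refine ⟨max M₀ (max M₁ 3), fun N M hM hN => ?_⟩
  have hM0 : M₀ ≤ M := (le_max_left _ _).trans hM
  have hM1 : M₁ ≤ M := ((le_max_left _ _).trans (le_max_right _ _)).trans hM
  have hM3 : 3 ≤ M := ((le_max_right _ _).trans (le_max_right _ _)).trans hM
  refine le_trans (Nat.cast_le.2 (Finset.card_le_card fun t ht => ?_)) (hM₀ N M hM0 hN)
  obtain ⟨hta, htb⟩ := Finset.mem_filter.1 ht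
  refine Finset.mem_filter.2 ⟨hta, fun hgood => hB t htb ⟨hgood.1, hgood.2.trans ?_⟩⟩
  refine mul_le_mul_of_nonneg_right ?_ (hE t)
  have hMr : (3 : ℝ) ≤ M := by exact_mod_cast hM3
  have ht1 := (Finset.mem_Ioc.1 hta).1
  have ht2 := (Finset.mem_Ioc.1 hta).2
  have hlogM : 0 < Real.log M := Real.log_pos (by linarith)
  have habs : |(t : ℝ)| + 2 ≤ (M : ℝ) ^ (L + 2) := by
    have e1 : (|t| : ℤ) ≤ (M : ℤ) ^ L + M := by
      have h1 := neg_abs_le N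
      have h2 := le_abs_self N
      rw [abs_le]
      constructor
      · have : (0 : ℤ) ≤ M := Int.natCast_nonneg M
        linarith
      · linarith
    have e2 : |(t : ℝ)| ≤ (M : ℝ) ^ L + M := by exact_mod_cast e1
    have e3 : (1 : ℝ) ≤ (M : ℝ) ^ L := one_le_pow₀ (by linarith)
    have e4 : (M : ℝ) ^ (L + 2) = (M : ℝ) ^ L * (M : ℝ) ^ 2 := pow_add _ _ _
    rw [e4]
    have e7 : 0 ≤ ((M : ℝ) ^ L - 1) * ((M : ℝ) ^ 2 - 1) :=
      mul_nonneg (by linarith) (by nlinarith)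
    nlinarith
  have hpos : (0 : ℝ) < |(t : ℝ)| + 2 := by positivity
  have hlog : Real.log (|(t : ℝ)| + 2) ≤ ((L : ℝ) + 2) * Real.log M := by
    have h1 := Real.log_le_log hpos habs
    rw [Real.log_pow] at h1
    push_cast at h1
    exact h1
  have hlogt : 0 < Real.log (|(t : ℝ)| + 2) := Real.log_pos (by
    have := abs_nonneg (t : ℝ)
    linarith)
  have e5 : (Real.log (|(t : ℝ)| + 2)) ^ η ≤ (Real.log M) ^ (η + δ) := by
    calc (Real.log (|(t : ℝ)| + 2)) ^ η ≤ (((L : ℝ) + 2) * Real.log M) ^ η :=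
          Real.rpow_le_rpow hlogt.le hlog hη.le
      _ = ((L : ℝ) + 2) ^ η * (Real.log M) ^ η := Real.mul_rpow (by positivity) hlogM.le
      _ ≤ (Real.log M) ^ δ * (Real.log M) ^ η :=
          mul_le_mul_of_nonneg_right (hM₁ M hM1) (by positivity)
      _ = (Real.log M) ^ (η + δ) := by rw [← Real.rpow_add hlogM, add_comm]
  have e6 : δ - κ = -(η + δ) := by rw [hδ]; ring
  rw [e6, Real.rpow_neg hlogM.le, Real.rpow_neg hlogt.le]
  exact inv_anti₀ (by positivity) e5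

end Pool.Agent.Q1.RS
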