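import Pool.Agent.Q1.RS.Pack

/-!
# The frequencies of large values from one moment
-/

set_option autoImplicit false

namespace Pool.Agent.Q1.RS

open Finset MeasureTheory Filter Topology Set
open scoped NNReal ENNReal

/-- bounded moments with an explicit constant -/
theorem moment_ae_C {f : ℤ → ℝ} (hf : ∀ t, 0 ≤ f t) {q : ℕ} (hq : q ≠ 0) {δ : ℝ} (hδ : 0 < δ)
    {k : ℕ} (hk : 1 / δ ≤ k) {C : ℝ} (hC0 : 0 < C)
    (hC : ∀ a b : ℝ, 3 ≤ b - a → |a| + 1 ≤ (b - a - 1) ^ (k + 2) →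
      ∑ t ∈ Finset.Ico ⌈a⌉ ⌈b⌉, f t ^ q ≤ C * (b - a))
    {s : ℕ} (hqs : q < s) (h' : Mom f s) {x : ℕ → ℝ} (hxt : Tendsto x atTop atTop)
    (hxg : ∀ᶠ n in atTop, x n ^ (1 + δ) ≤ x (n + 1)) :
    ∀ᵐ α : ℝ, ∀ᶠ N : ℕ in atTop,
      ∑ n ∈ Finset.range N, f ⌊α * x n⌋ ^ q ≤ (2 * C + 1 + 1) * N := by
  obtain ⟨n₁, hn₁⟩ := eventually_atTop.1 ((hxt.eventually_gt_atTop 1).and hxg)
  set z : ℕ → ℝ := fun j => x (j + n₁) with hz
  have hz1 : ∀ n, 1 < z n := fun n => (hn₁ (n + n₁) (by omega)).1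
  have hz0 : ∀ n, 0 < z n := fun n => by linarith [hz1 n]
  have hzg : ∀ n, z n ^ (1 + δ) ≤ z (n + 1) := fun n => by
    have := (hn₁ (n + n₁) (by omega)).2
    rwa [show n + n₁ + 1 = n + 1 + n₁ by omega] at this
  have hrat := fun n => le_ratio hδ (hz1 n) (hzg n) hk
  obtain ⟨c, hc, hcz⟩ := exists_pos_le (w := fun n => z n ^ δ / 2 ^ n)
    (fun n => by have := hz0 n; positivity) (growth_tendsto hδ (hz1 0) hzg hδ two_pos)
  have hs : Summable fun n => z n / z (n + 1) := by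
    have h1 : Summable fun n : ℕ => 1 / c * (1 / 2 : ℝ) ^ n :=
      (summable_geometric_of_lt_one (by norm_num) (by norm_num)).mul_left _
    refine Summable.of_nonneg_of_le (fun n => ?_) (fun n => ?_) h1
    · have := hz0 n
      have := hz0 (n + 1)
      positivity
    · have h2 := (hrat n).1
      have h3 := hcz n
      have h4 := hz0 n
      have h5 := hz0 (n + 1)
      rw [le_div_iff₀ (by positivity)] at h3
      have h6 : c * 2 ^ n ≤ z (n + 1) / z n := h3.trans h2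
      have h7 : z n / z (n + 1) = (z (n + 1) / z n)⁻¹ := by rw [inv_div]
      rw [h7, inv_le_comm₀ (by positivity) (by positivity)]
      refine le_trans (le_of_eq ?_) h6
      rw [one_div_pow, mul_inv, one_div, one_div, inv_inv, inv_inv]
  have hρt : Tendsto (fun n => z (n + 1) / z n) atTop atTop := by
    refine tendsto_atTop_mono (fun n => (hrat n).1) ?_
    refine tendsto_atTop_mono (fun n => ?_) (growth_tendsto hδ (hz1 0) hzg hδ two_pos)
    have := hz0 n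
    exact div_le_self (by positivity) (one_le_pow₀ (by norm_num))
  have hV : ∀ V : ℕ, ∃ n₀ : ℕ, ∀ n, n₀ ≤ n → 2 ^ (k + 2) * ((V : ℝ) + 3) ≤ z (n + 1) / z n :=
    fun V => eventually_atTop.1 (hρt.eventually_ge_atTop _)
  choose n₀ hn₀ using hV
  have key : ∀ V j : ℕ, ∀ᵐ α : ℝ, (|α| ≤ V ∧
      ∀ n, par (fun i => z (i + (n₀ V + j))) n ⌊α * z (n + 1 + (n₀ V + j))⌋ =
        ⌊α * z (n + (n₀ V + j))⌋) →
      ∀ᶠ N : ℕ in atTop, ∑ m ∈ Finset.range N, f ⌊α * z (m + 1 + (n₀ V + j))⌋ ^ q ≤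
        (2 * C + 1) * N := by
    intro V j
    have := moment_one hf hq hC0 hC hqs h' V (x := fun i => z (i + (n₀ V + j))) (fun n => hz1 _)
      (fun n => ?_) (fun n => ?_) ?_
    · exact this
    · have := (hrat (n + (n₀ V + j))).2
      rw [show n + (n₀ V + j) + 1 = n + 1 + (n₀ V + j) by omega] at this
      exact this
    · have := hn₀ V (n + (n₀ V + j)) (by omega)
      rw [show n + (n₀ V + j) + 1 = n + 1 + (n₀ V + j) by omega] at this
      exact this
    · have := (summable_nat_add_iff (n₀ V + j)).2 hs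
      refine this.congr fun n => ?_
      rw [show n + (n₀ V + j) + 1 = n + 1 + (n₀ V + j) by omega]
  have key2 := ae_all_iff.2 fun V => ae_all_iff.2 fun j => key V j
  filter_upwards [key2, par_ae hz1 hs] with α h1 h2
  obtain ⟨V, hV⟩ := exists_nat_ge |α|
  obtain ⟨j, hj⟩ := eventually_atTop.1 h2
  have h3 := h1 V j ⟨hV, fun n => by
    have h4 := hj (n + (n₀ V + j)) (by omega)
    rw [par] at h4 ⊢
    rw [show n + (n₀ V + j) + 1 = n + 1 + (n₀ V + j) by omega] at h4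
    exact h4⟩
  refine shift_sum (p := 1 + (n₀ V + j) + n₁) (by positivity) ?_
  filter_upwards [h3] with N hN
  refine le_trans (le_of_eq (Finset.sum_congr rfl fun m _ => ?_)) hN
  rw [hz]
  dsimp only
  rw [show m + (1 + (n₀ V + j) + n₁) = m + 1 + (n₀ V + j) + n₁ by omega]

/-- **The frequencies of large values.** -/
theorem freq_ae {f : ℤ → ℝ} (hf : ∀ t, 0 ≤ f t) {s : ℕ} (h : Mom f s) {δ : ℝ} (hδ : 0 < δ) :
    ∃ K : ℝ, 0 < K ∧ ∀ x : ℕ → ℝ, Tendsto x atTop atTop →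
      (∀ᶠ n in atTop, x n ^ (1 + δ) ≤ x (n + 1)) → ∀ y : ℝ, 0 < y →
      ∀ᵐ α : ℝ, ∀ᶠ N : ℕ in atTop,
        (((Finset.range N).filter (fun n => y ≤ f ⌊α * x n⌋)).card : ℝ) ≤ K * N / y ^ s := by
  classical
  obtain ⟨k, hk⟩ := exists_nat_ge (1 / δ)
  obtain ⟨C, hC0, hC⟩ := h.cnt hf (k + 2)
  refine ⟨4 * C, by positivity, fun x hxt hxg y hy => ?_⟩
  have hys : 0 < y ^ s := by positivity
  set l : ℝ := y ^ s / C with hl
  have hl0 : 0 < l := by positivity
  set g : ℤ → ℝ := fun t => if y ≤ f t then l else 0 with hg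
  have hg0 : ∀ t, 0 ≤ g t := fun t => by
    rw [hg]
    dsimp only
    split_ifs
    · exact hl0.le
    · exact le_rfl
  have hgs : ∀ (S : Finset ℤ) (j : ℕ), j ≠ 0 → ∑ t ∈ S, g t ^ j =
      ((S.filter (fun t => y ≤ f t)).card : ℝ) * l ^ j := by
    intro S j hj
    rw [← nsmul_eq_mul, ← Finset.sum_const, Finset.sum_filter]
    refine Finset.sum_congr rfl fun t _ => ?_
    rw [hg]
    dsimp only
    split_ifs
    · rfl
    · exact zero_pow hj
  have hg1 : ∀ a b : ℝ, 3 ≤ b - a → |a| + 1 ≤ (b - a - 1) ^ (k + 2) →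
      ∑ t ∈ Finset.Ico ⌈a⌉ ⌈b⌉, g t ^ 1 ≤ 1 * (b - a) := by
    intro a b hab ha
    rw [hgs _ 1 one_ne_zero, pow_one]
    have h1 := mul_le_mul_of_nonneg_right (hC a b y hy hab ha) hl0.le
    refine h1.trans (le_of_eq ?_)
    rw [hl]
    field_simp
  have hg2 : Mom g 2 := by
    intro L
    refine ⟨l ^ 2, fun N M _ _ => ?_⟩
    rw [hgs _ 2 two_ne_zero, mul_comm]
    refine mul_le_mul_of_nonneg_left ?_ (by positivity)
    have h1 := Finset.card_filter_le (Finset.Ioc N (N + M)) (fun t => y ≤ f t)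
    rw [Int.card_Ioc, add_sub_cancel_left, Int.toNat_natCast] at h1
    exact_mod_cast h1
  filter_upwards [moment_ae_C hg0 one_ne_zero hδ hk one_pos hg1 one_lt_two hg2 hxt hxg] with α hα
  filter_upwards [hα] with N hN
  have h2 : ∑ n ∈ Finset.range N, g ⌊α * x n⌋ ^ 1 =
      (((Finset.range N).filter (fun n => y ≤ f ⌊α * x n⌋)).card : ℝ) * l := by
    rw [← nsmul_eq_mul, ← Finset.sum_const, Finset.sum_filter]
    refine Finset.sum_congr rfl fun n _ => ?_
    rw [hg, pow_one]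
  rw [h2] at hN
  rw [le_div_iff₀ hys]
  have h3 : (((Finset.range N).filter (fun n => y ≤ f ⌊α * x n⌋)).card : ℝ) * y ^ s =
      C * ((((Finset.range N).filter (fun n => y ≤ f ⌊α * x n⌋)).card : ℝ) * l) := by
    rw [hl]
    field_simp
  rw [h3]
  calc C * ((((Finset.range N).filter (fun n => y ≤ f ⌊α * x n⌋)).card : ℝ) * l)
      ≤ C * ((2 * 1 + 1 + 1) * N) := mul_le_mul_of_nonneg_left hN hC0.le
    _ = 4 * C * N := by ring

end Pool.Agent.Q1.RS
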