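import Pool.Agent.Q1.RS.Dim

/-!
# Dimension one from one moment
-/

set_option autoImplicit false

namespace Pool.Agent.Q1.RS

open Finset MeasureTheory Filter Topology Set
open scoped NNReal ENNReal

/-- a window contains many good integers -/
theorem window {f : ℤ → ℝ} {s L : ℕ} {C : ℝ}
    (hC : ∀ a b y : ℝ, 0 < y → 3 ≤ b - a → |a| + 1 ≤ (b - a - 1) ^ L →
      (((Finset.Ico ⌈a⌉ ⌈b⌉).filter (fun t => y ≤ f t)).card : ℝ) ≤ C / y ^ s * (b - a))
    {R : ℝ} (hR : 0 < R) (hRs : 4 * C ≤ R ^ s) {a ρ : ℝ} (hρ : 8 ≤ ρ)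
    (ha : |a| + 1 ≤ (ρ / 4) ^ L) :
    ∃ S : Finset ℤ, (∀ t ∈ S, f t ≤ R ∧ a ≤ t ∧ (t : ℝ) + 1 ≤ a + ρ / 2) ∧
      ρ / 16 ≤ (S.card : ℝ) := by
  classical
  set b : ℝ := a + ρ / 2 - 1 with hb
  have hba : b - a = ρ / 2 - 1 := by rw [hb]; ring
  refine ⟨(Finset.Ico ⌈a⌉ ⌈b⌉).filter (fun t => ¬ R ≤ f t), fun t ht => ?_, ?_⟩
  · rw [Finset.mem_filter, Finset.mem_Ico] at ht
    have h1 : a ≤ t := Int.ceil_le.1 ht.1.1
    have h2 : (t : ℝ) < b := Int.lt_ceil.1 ht.1.2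
    exact ⟨(not_le.1 ht.2).le, h1, by rw [hb] at h2; linarith⟩
  · have h1 := hC a b R hR (by rw [hba]; linarith) (ha.trans (pow_le_pow_left₀ (by linarith)
      (by rw [hba]; linarith) L))
    have h2 := card_Ico_ge (a := a) (b := b)
    have h3 := Finset.card_filter_add_card_filter_not (s := Finset.Ico ⌈a⌉ ⌈b⌉) (fun t => R ≤ f t)
    have h4 : (((Finset.Ico ⌈a⌉ ⌈b⌉).filter (fun t => R ≤ f t)).card : ℝ) +
        (((Finset.Ico ⌈a⌉ ⌈b⌉).filter (fun t => ¬ R ≤ f t)).card : ℝ) =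
        ((Finset.Ico ⌈a⌉ ⌈b⌉).card : ℝ) := by exact_mod_cast h3
    have h5 : C / R ^ s ≤ 1 / 4 := by
      rw [div_le_iff₀ (by positivity)]
      linarith
    have h6 : C / R ^ s * (b - a) ≤ 1 / 4 * (b - a) :=
      mul_le_mul_of_nonneg_right h5 (by rw [hba]; linarith)
    rw [hba] at h6 h2 h1
    linarith

/-- the terms are bounded by powers of the ratios -/
theorem le_ratio {p q δ : ℝ} (hδ : 0 < δ) (hp : 1 < p) (hpq : p ^ (1 + δ) ≤ q) {k : ℕ}
    (hk : 1 / δ ≤ k) : p ^ δ ≤ q / p ∧ q ≤ (q / p) ^ (k + 1) := by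
  have hp0 : 0 < p := by linarith
  have h1 : p ^ δ ≤ q / p := by
    rw [le_div_iff₀ hp0]
    refine le_trans (le_of_eq ?_) hpq
    rw [Real.rpow_add hp0, Real.rpow_one, mul_comm]
  have h0 : 1 ≤ q / p := le_trans (Real.one_le_rpow hp.le hδ.le) h1
  refine ⟨h1, ?_⟩
  have h2 : p ≤ (q / p) ^ k := by
    calc p = (p ^ δ) ^ (1 / δ) := by
          rw [← Real.rpow_mul hp0.le, mul_one_div, div_self hδ.ne', Real.rpow_one]
      _ ≤ (q / p) ^ (1 / δ) := Real.rpow_le_rpow (by positivity) h1 (by positivity)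
      _ ≤ (q / p) ^ (k : ℝ) := Real.rpow_le_rpow_of_exponent_le h0 hk
      _ = _ := Real.rpow_natCast _ _
  calc q = p * (q / p) := by field_simp
    _ ≤ (q / p) ^ k * (q / p) := mul_le_mul_of_nonneg_right h2 (by linarith)
    _ = _ := (pow_succ _ _).symm

/-- **Full dimension from one moment.** -/
theorem dim_mom {f : ℤ → ℝ} (hf : ∀ t, 0 ≤ f t) {s : ℕ} (hs : s ≠ 0) (h : Mom f s) {δ : ℝ}
    (hδ : 0 < δ) :
    ∃ R : ℝ, ∀ u v : ℝ, u < v → ∃ X₀ : ℝ, ∀ x : ℕ → ℝ, X₀ ≤ x 0 →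
      (∀ n, x n ^ (1 + δ) ≤ x (n + 1)) →
      dimH {α : ℝ | u ≤ α ∧ α ≤ v ∧ ∀ n, f ⌊α * x n⌋ ≤ R} = 1 := by
  obtain ⟨k, hk⟩ := exists_nat_ge (1 / δ)
  obtain ⟨C, hC0, hC⟩ := h.cnt hf (k + 2)
  refine ⟨4 * C + 1, fun u v huv => ?_⟩
  have hR : (0 : ℝ) < 4 * C + 1 := by positivity
  have hRs : 4 * C ≤ (4 * C + 1) ^ s := by
    calc 4 * C ≤ 4 * C + 1 := by linarith
      _ = (4 * C + 1) ^ 1 := (pow_one _).symm
      _ ≤ _ := pow_le_pow_right₀ (by linarith) (Nat.one_le_iff_ne_zero.2 hs)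
  set W : ℝ := max |u| |v| with hW
  have hW0 : 0 ≤ W := le_trans (abs_nonneg u) (le_max_left _ _)
  have hWw : ∀ w, u ≤ w → w ≤ v → |w| ≤ W := fun w h1 h2 => by
    rw [hW, abs_le]
    constructor
    · have := neg_abs_le u
      have := le_max_left |u| |v|
      linarith
    · have := le_abs_self v
      have := le_max_right |u| |v|
      linarith
  have hvu : 0 < v - u := by linarith
  set ρ₀ : ℝ := 4 ^ (k + 2) * (W + 1) + 16 with hρ₀
  have hρ₀16 : 16 ≤ ρ₀ := by rw [hρ₀]; nlinarith [pow_pos (show (0 : ℝ) < 4 by norm_num) (k + 2)]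
  refine ⟨max (max 2 (ρ₀ ^ (1 / δ))) (max (16 / (v - u)) (16 * (W + 1) / (v - u) ^ 2)),
    fun x hX hx => ?_⟩
  have hX2 : 2 ≤ x 0 := le_trans (le_trans (le_max_left _ _) (le_max_left _ _)) hX
  have hXρ : ρ₀ ^ (1 / δ) ≤ x 0 := le_trans (le_trans (le_max_right _ _) (le_max_left _ _)) hX
  have hX16 : 16 / (v - u) ≤ x 0 := le_trans (le_trans (le_max_left _ _) (le_max_right _ _)) hX
  have hXW : 16 * (W + 1) / (v - u) ^ 2 ≤ x 0 :=
    le_trans (le_trans (le_max_right _ _) (le_max_right _ _)) hX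
  have hx0 : 1 < x 0 := by linarith
  have hx1 : ∀ n, 1 < x n := one_lt_x hδ hx0 hx
  have hmono : ∀ n, x 0 ≤ x n := by
    intro n
    refine le_trans ?_ (growth hδ hx0 hx n)
    calc x 0 = x 0 ^ (1 : ℝ) := (Real.rpow_one _).symm
      _ ≤ _ := Real.rpow_le_rpow_of_exponent_le hx0.le (one_le_pow₀ (by linarith))
  have hρδ : ∀ n, ρ₀ ≤ x n ^ δ := by
    intro n
    calc ρ₀ = (ρ₀ ^ (1 / δ)) ^ δ := by
          rw [← Real.rpow_mul (by linarith), one_div, inv_mul_cancel₀ hδ.ne', Real.rpow_one]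
      _ ≤ x 0 ^ δ := Real.rpow_le_rpow (by positivity) hXρ hδ.le
      _ ≤ _ := Real.rpow_le_rpow (by linarith) (hmono n) hδ.le
  have hrat : ∀ n, ρ₀ ≤ x (n + 1) / x n := fun n =>
    (hρδ n).trans (le_ratio hδ (hx1 n) (hx n) hk).1
  have h16 : ∀ n, 16 * x n ≤ x (n + 1) := fun n => by
    have h1 := hρ₀16.trans (hrat n)
    rwa [le_div_iff₀ (by linarith [hx1 n])] at h1
  have hvx : 16 ≤ (v - u) * x 0 := by
    rw [div_le_iff₀ hvu] at hX16
    linarith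
  refine dim_one_of_windows (G := {t | f t ≤ 4 * C + 1}) hδ hx0 hx huv h16 hvx ?_ ?_
  · intro w hw hwv
    have hρ : 8 ≤ (v - u) * x 0 := by linarith
    have ha : |w * x 0| + 1 ≤ ((v - u) * x 0 / 4) ^ (k + 2) := by
      have e1 : |w * x 0| ≤ W * x 0 := by
        rw [abs_mul, abs_of_pos (show 0 < x 0 by linarith)]
        exact mul_le_mul_of_nonneg_right (hWw w hw (by linarith)) (by linarith)
      have e2 : W * x 0 + 1 ≤ ((v - u) * x 0 / 4) ^ 2 := by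
        rw [div_le_iff₀ (by positivity)] at hXW
        nlinarith
      exact (add_le_add_left e1 1).trans (e2.trans
        (pow_le_pow_right₀ (by linarith) (by omega)))
    obtain ⟨S, hS, hc⟩ := window hC hR hRs hρ ha
    refine ⟨S, fun t ht => ?_, hc⟩
    obtain ⟨e1, e2, e3⟩ := hS t ht
    exact ⟨e1, e2, le_trans e3 (le_of_eq (by ring))⟩
  · intro n w hw hwv
    have hxn : 0 < x n := by linarith [hx1 n]
    have hxn1 : 0 < x (n + 1) := by linarith [hx1 (n + 1)]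
    set ρ : ℝ := x (n + 1) / x n with hρd
    have hρ : ρ₀ ≤ ρ := hrat n
    have hr := (le_ratio hδ (hx1 n) (hx n) hk).2
    have ha : |w * x (n + 1)| + 1 ≤ (ρ / 4) ^ (k + 2) := by
      have e1 : |w * x (n + 1)| ≤ W * ρ ^ (k + 1) := by
        rw [abs_mul, abs_of_pos hxn1]
        refine mul_le_mul (hWw w hw ?_) hr hxn1.le hW0
        have : 0 < 1 / (2 * x n) := by positivity
        linarith
      have e2 : (1 : ℝ) ≤ ρ ^ (k + 1) := one_le_pow₀ (by linarith)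
      have e3 : (ρ / 4) ^ (k + 2) = ρ ^ (k + 1) * (ρ / 4 ^ (k + 2)) := by
        rw [div_pow, pow_succ ρ (k + 1)]
        ring
      have e4 : W + 1 ≤ ρ / 4 ^ (k + 2) := by
        rw [le_div_iff₀ (by positivity)]
        linarith
      rw [e3]
      nlinarith
    obtain ⟨S, hS, hc⟩ := window hC hR hRs (by linarith) ha
    refine ⟨S, fun t ht => ?_, le_trans (le_of_eq ?_) hc⟩
    · obtain ⟨e1, e2, e3⟩ := hS t ht
      refine ⟨e1, e2, le_trans e3 (le_of_eq ?_)⟩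
      rw [hρd]
      field_simp
    · rw [hρd]
      field_simp

end Pool.Agent.Q1.RS
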