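import Pool.Agent.Q1.RS.Gro
import Pool.Agent.Q1.RS.DimM

/-!
# Chains of integer parts
-/

set_option autoImplicit false

namespace Pool.Agent.Q1.RS

open Finset MeasureTheory Filter Topology Set
open scoped NNReal ENNReal

/-- the integer part of `α x n` that belongs to the integer part `t` of `α x (n + 1)` -/
noncomputable def par (x : ℕ → ℝ) (n : ℕ) (t : ℤ) : ℤ := ⌊(t : ℝ) / (x (n + 1) / x n)⌋

/-- the product of the weights of the ancestors -/
noncomputable def Pr (x : ℕ → ℝ) (T : ℕ → Finset ℤ) (e : ℤ → ℝ) : ℕ → ℤ → ℝ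
  | 0, _ => 1
  | n + 1, t => if par x n t ∈ T n then Pr x T e n (par x n t) * e t else 0

theorem Pr_nonneg (x : ℕ → ℝ) (T : ℕ → Finset ℤ) {e : ℤ → ℝ} (he : ∀ t, 0 ≤ e t) (n : ℕ) :
    ∀ t, 0 ≤ Pr x T e n t := by
  induction n with
  | zero => intro t; simp [Pr]
  | succ n ih =>
    intro t
    rw [Pr]
    split_ifs
    · exact mul_nonneg (ih _) (he _)
    · exact le_rfl

theorem chain_sum {x : ℕ → ℝ} (hx : ∀ n, 0 < x n) (T : ℕ → Finset ℤ) {e : ℤ → ℝ}
    (he : ∀ t, 0 ≤ e t) {κ : ℕ → ℝ} (hκ0 : ∀ n, 0 ≤ κ n)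
    (hκ : ∀ n, ∀ t ∈ T n, ∑ t' ∈ Finset.Ico ⌈(t : ℝ) * (x (n + 1) / x n)⌉
      ⌈((t : ℝ) + 1) * (x (n + 1) / x n)⌉, e t' ≤ x (n + 1) / x n * κ n) (n : ℕ) :
    ∑ t ∈ T n, Pr x T e n t ≤ (T 0).card * (x n / x 0) * ∏ m ∈ Finset.range n, κ m := by
  classical
  induction n with
  | zero =>
    simp only [Pr, Finset.sum_const, nsmul_eq_mul, mul_one, Finset.range_zero, Finset.prod_empty]
    rw [div_self (hx 0).ne', mul_one]
  | succ n ih =>
    have hρ : 0 < x (n + 1) / x n := div_pos (hx _) (hx _)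
    have h1 : ∑ t ∈ T (n + 1), Pr x T e (n + 1) t =
        ∑ t ∈ (T (n + 1)).filter (fun t => par x n t ∈ T n), Pr x T e n (par x n t) * e t := by
      rw [Finset.sum_filter]
      refine Finset.sum_congr rfl fun t _ => ?_
      rw [Pr]
    rw [h1, ← Finset.sum_fiberwise_of_maps_to (g := par x n) (t := T n)
      (fun t ht => (Finset.mem_filter.1 ht).2)]
    have h2 : ∀ t ∈ T n, ∑ t' ∈ ((T (n + 1)).filter (fun t => par x n t ∈ T n)).filter
        (fun t' => par x n t' = t), Pr x T e n (par x n t') * e t' ≤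
        Pr x T e n t * (x (n + 1) / x n * κ n) := by
      intro t ht
      have h3 : ∑ t' ∈ ((T (n + 1)).filter (fun t => par x n t ∈ T n)).filter
          (fun t' => par x n t' = t), Pr x T e n (par x n t') * e t' =
          Pr x T e n t * ∑ t' ∈ ((T (n + 1)).filter (fun t => par x n t ∈ T n)).filter
          (fun t' => par x n t' = t), e t' := by
        rw [Finset.mul_sum]
        refine Finset.sum_congr rfl fun t' ht' => ?_
        rw [(Finset.mem_filter.1 ht').2]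
      rw [h3]
      refine mul_le_mul_of_nonneg_left (le_trans ?_ (hκ n t ht)) (Pr_nonneg x T he n t)
      refine Finset.sum_le_sum_of_subset_of_nonneg (fun t' ht' => ?_) fun _ _ _ => he _
      have h4 := (Finset.mem_filter.1 ht').2
      rw [par, Int.floor_eq_iff, le_div_iff₀ hρ, div_lt_iff₀ hρ] at h4
      rw [Finset.mem_Ico, Int.ceil_le, Int.lt_ceil]
      exact h4
    refine (Finset.sum_le_sum h2).trans ?_
    rw [← Finset.sum_mul, Finset.prod_range_succ]
    have h5 : 0 ≤ x (n + 1) / x n * κ n := mul_nonneg hρ.le (hκ0 n)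
    refine (mul_le_mul_of_nonneg_right ih h5).trans (le_of_eq ?_)
    have := hx n
    have := hx 0
    field_simp

/-- the product for a consistent chain -/
theorem Pr_eq {x : ℕ → ℝ} (T : ℕ → Finset ℤ) (e : ℤ → ℝ) {α : ℝ} (h1 : ∀ n, ⌊α * x n⌋ ∈ T n)
    (h2 : ∀ n, par x n ⌊α * x (n + 1)⌋ = ⌊α * x n⌋) (n : ℕ) :
    Pr x T e n ⌊α * x n⌋ = ∏ m ∈ Finset.range n, e ⌊α * x (m + 1)⌋ := by
  induction n with
  | zero => simp [Pr]
  | succ n ih => rw [Pr, h2, if_pos (h1 n), ih, Finset.prod_range_succ]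

/-- Markov's inequality -/
theorem vol_Pr {x : ℝ} (hx : 0 < x) (T : Finset ℤ) {P : ℤ → ℝ} (hP : ∀ t, 0 ≤ P t) {y : ℝ}
    (hy : 0 < y) :
    volume {α : ℝ | ⌊α * x⌋ ∈ T ∧ y ≤ P ⌊α * x⌋} ≤ ENNReal.ofReal ((∑ t ∈ T, P t) / (y * x)) := by
  classical
  have h1 : {α : ℝ | ⌊α * x⌋ ∈ T ∧ y ≤ P ⌊α * x⌋} = {α : ℝ | ⌊α * x⌋ ∈ T.filter (fun t => y ≤ P t)} := by
    ext α
    simp only [Set.mem_ofPred_eq, Finset.mem_filter]
  rw [h1]
  refine (vol_le _ hx.ne').trans (ENNReal.ofReal_le_ofReal ?_)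
  rw [abs_of_pos hx, div_le_div_iff₀ hx (by positivity)]
  have h2 : ((T.filter (fun t => y ≤ P t)).card : ℝ) * y ≤ ∑ t ∈ T, P t := by
    rw [← nsmul_eq_mul]
    exact le_trans (Finset.card_nsmul_le_sum _ _ _ fun t ht => (Finset.mem_filter.1 ht).2)
      (Finset.sum_le_sum_of_subset_of_nonneg (Finset.filter_subset _ _) fun _ _ _ => hP _)
  nlinarith

/-- the integer parts for `|α| ≤ V` -/
noncomputable def TV (V : ℝ) (x : ℕ → ℝ) (n : ℕ) : Finset ℤ :=
  Finset.Ico ⌈-(V * x n) - 1⌉ ⌈V * x n + 1⌉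

theorem mem_TV {V : ℝ} {x : ℕ → ℝ} (hx : ∀ n, 0 < x n) {α : ℝ} (hα : |α| ≤ V) (n : ℕ) :
    ⌊α * x n⌋ ∈ TV V x n := by
  have h5 : |α * x n| ≤ V * x n := by
    rw [abs_mul, abs_of_pos (hx n)]
    exact mul_le_mul_of_nonneg_right hα (hx n).le
  have h6 := abs_le.1 h5
  have h7 := Int.floor_le (α * x n)
  have h8 := Int.lt_floor_add_one (α * x n)
  rw [TV, Finset.mem_Ico, Int.ceil_le, Int.lt_ceil]
  constructor
  · linarith [h6.1]
  · linarith [h6.2]

theorem abs_of_mem_TV {V : ℝ} {x : ℕ → ℝ} {n : ℕ} {t : ℤ} (ht : t ∈ TV V x n) :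
    |(t : ℝ)| ≤ V * x n + 1 := by
  rw [TV, Finset.mem_Ico, Int.ceil_le, Int.lt_ceil] at ht
  rw [abs_le]
  constructor
  · linarith [ht.1]
  · exact ht.2.le

/-- almost all chains are consistent from some point on -/
theorem par_ae {x : ℕ → ℝ} (hx : ∀ n, 1 < x n) (hs : Summable fun n => x n / x (n + 1)) :
    ∀ᵐ α : ℝ, ∀ᶠ n : ℕ in atTop, par x n ⌊α * x (n + 1)⌋ = ⌊α * x n⌋ := by
  have hx0 : ∀ n, 0 < x n := fun n => by linarith [hx n]
  have key : ∀ V : ℕ, ∀ᵐ α : ℝ, |α| ≤ V → ∀ᶠ n : ℕ in atTop,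
      par x n ⌊α * x (n + 1)⌋ = ⌊α * x n⌋ := by
    intro V
    have hV : (0 : ℝ) ≤ V := Nat.cast_nonneg V
    have hsum : ∑' n : ℕ, volume {α : ℝ | |α| ≤ V ∧ par x n ⌊α * x (n + 1)⌋ ≠ ⌊α * x n⌋} ≠ ⊤ := by
      have h1 : ∀ n : ℕ, volume {α : ℝ | |α| ≤ V ∧ par x n ⌊α * x (n + 1)⌋ ≠ ⌊α * x n⌋} ≤
          ENNReal.ofReal ((2 * V + 3) * (x n / x (n + 1))) := by
        intro n
        have hn := hx0 n
        have hn1 := hx0 (n + 1)
        have hsub : {α : ℝ | |α| ≤ V ∧ par x n ⌊α * x (n + 1)⌋ ≠ ⌊α * x n⌋} ⊆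
            ⋃ t ∈ TV V x n, (fun α : ℝ => α * x n) ⁻¹' (Set.Ico (t : ℝ) (t + x n / x (n + 1))) := by
          rintro α ⟨h3, h4⟩
          simp only [Set.mem_iUnion, Set.mem_preimage, Set.mem_Ico, exists_prop]
          refine ⟨_, mem_TV hx0 h3 n, Int.floor_le _, ?_⟩
          by_contra h5
          apply h4
          have hρ : 0 < x (n + 1) / x n := by positivity
          rw [par, Int.floor_eq_iff, le_div_iff₀ hρ, div_lt_iff₀ hρ]
          have h6 := Int.floor_le (α * x (n + 1))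
          have h7 := Int.lt_floor_add_one (α * x (n + 1))
          have h8 := Int.lt_floor_add_one (α * x n)
          have e1 : α * x (n + 1) = (α * x n) * (x (n + 1) / x n) := by field_simp
          have e2 : x n / x (n + 1) * (x (n + 1) / x n) = 1 := by field_simp
          constructor
          · have h9 := mul_le_mul_of_nonneg_right (not_lt.1 h5) hρ.le
            rw [add_mul, e2, ← e1] at h9
            linarith
          · have h9 := mul_lt_mul_of_pos_right h8 hρ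
            rw [← e1] at h9
            linarith
        refine (measure_mono hsub).trans ((measure_biUnion_finset_le _ _).trans ?_)
        have h2 : ∀ t ∈ TV V x n, volume ((fun α : ℝ => α * x n) ⁻¹'
            (Set.Ico (t : ℝ) (t + x n / x (n + 1)))) = ENNReal.ofReal (1 / x (n + 1)) := by
          intro t _
          rw [Real.volume_preimage_mul_right hn.ne', Real.volume_Ico, add_sub_cancel_left,
            ← ENNReal.ofReal_mul (abs_nonneg _), abs_inv, abs_of_pos hn]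
          congr 1
          field_simp
        rw [Finset.sum_congr rfl h2, Finset.sum_const, nsmul_eq_mul, ← ENNReal.ofReal_natCast,
          ← ENNReal.ofReal_mul (Nat.cast_nonneg _), mul_one_div]
        refine ENNReal.ofReal_le_ofReal ?_
        rw [← mul_div_assoc]
        refine div_le_div_of_nonneg_right ?_ hn1.le
        have h3 := card_Ico_le (a := -(V * x n) - 1) (b := V * x n + 1) (by nlinarith)
        change ((TV V x n).card : ℝ) ≤ _ at h3
        nlinarith [hx n]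
      refine ne_top_of_le_ne_top ?_ (ENNReal.tsum_le_tsum h1)
      have h3 : Summable fun n : ℕ => (2 * V + 3) * (x n / x (n + 1)) := hs.mul_left _
      rw [← ENNReal.ofReal_tsum_of_nonneg (fun n => by
        have := hx0 n
        have := hx0 (n + 1)
        positivity) h3]
      exact ENNReal.ofReal_ne_top
    filter_upwards [ae_eventually_notMem hsum] with α hα hV
    filter_upwards [hα] with n hn
    by_contra h2
    exact hn ⟨hV, h2⟩
  filter_upwards [ae_all_iff.2 key] with α hα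
  obtain ⟨V, hV⟩ := exists_nat_ge |α|
  exact hα V hV

end Pool.Agent.Q1.RS
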