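import Mathlib

/-!
# Moment bounds in short intervals and counting
-/

set_option autoImplicit false

namespace Pool.Agent.Q1.RS

open Finset

/-- the mean value of `f ^ s` over the integers of the interval `(N, N + M]` is bounded, uniformly
for `|N| ≤ M ^ L`, for every `L` -/
def Mom (f : ℤ → ℝ) (s : ℕ) : Prop :=
  ∀ L : ℕ, ∃ C : ℝ, ∀ (N : ℤ) (M : ℕ), 2 ≤ M → |N| ≤ (M : ℤ) ^ L →
    ∑ t ∈ Ioc N (N + M), f t ^ s ≤ C * M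

theorem Mom.sum {f : ℤ → ℝ} {s : ℕ} (h : Mom f s) (L : ℕ) :
    ∃ C : ℝ, 0 < C ∧ ∀ a b : ℝ, 3 ≤ b - a → |a| + 1 ≤ (b - a - 1) ^ L →
      ∑ t ∈ Ico ⌈a⌉ ⌈b⌉, f t ^ s ≤ C * (b - a) := by
  obtain ⟨C, hC⟩ := h L
  refine ⟨2 * max C 1, by positivity, fun a b hab haL => ?_⟩
  have h1 : (a : ℝ) ≤ ⌈a⌉ := Int.le_ceil a
  have h2 : (⌈a⌉ : ℝ) < a + 1 := Int.ceil_lt_add_one a
  have h3 : (b : ℝ) ≤ ⌈b⌉ := Int.le_ceil b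
  have h4 : (⌈b⌉ : ℝ) < b + 1 := Int.ceil_lt_add_one b
  have hab' : ⌈a⌉ + 2 ≤ ⌈b⌉ := by
    have : (⌈a⌉ : ℝ) + 2 ≤ ⌈b⌉ := by linarith
    exact_mod_cast this
  set M : ℕ := (⌈b⌉ - ⌈a⌉).toNat with hM
  have hMz : (M : ℤ) = ⌈b⌉ - ⌈a⌉ := Int.toNat_of_nonneg (by omega)
  have hMr : (M : ℝ) = ⌈b⌉ - ⌈a⌉ := by exact_mod_cast hMz
  have hset : Ico ⌈a⌉ ⌈b⌉ = Ioc (⌈a⌉ - 1) (⌈a⌉ - 1 + M) := by
    ext t
    rw [mem_Ico, mem_Ioc, hMz]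
    omega
  have hM2 : 2 ≤ M := by omega
  have hN : |⌈a⌉ - 1| ≤ (M : ℤ) ^ L := by
    have e1 : |((⌈a⌉ - 1 : ℤ) : ℝ)| ≤ |a| + 1 := by
      push_cast
      rw [abs_le]
      constructor
      · linarith [neg_abs_le a]
      · linarith [le_abs_self a]
    have e2 : (b - a - 1) ^ L ≤ (M : ℝ) ^ L :=
      pow_le_pow_left₀ (by linarith) (by rw [hMr]; linarith) L
    have e3 : |((⌈a⌉ - 1 : ℤ) : ℝ)| ≤ (M : ℝ) ^ L := e1.trans (haL.trans e2)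
    exact_mod_cast e3
  have hsum := hC _ M hM2 hN
  rw [← hset] at hsum
  refine hsum.trans ?_
  have hC1 : C ≤ max C 1 := le_max_left _ _
  have hM0 : (0 : ℝ) ≤ M := Nat.cast_nonneg M
  calc C * M ≤ max C 1 * M := mul_le_mul_of_nonneg_right hC1 hM0
    _ ≤ max C 1 * (2 * (b - a)) := by
        refine mul_le_mul_of_nonneg_left ?_ (by positivity)
        rw [hMr]
        linarith
    _ = _ := by ring

theorem Mom.cnt {f : ℤ → ℝ} (hf : ∀ t, 0 ≤ f t) {s : ℕ} (h : Mom f s) (L : ℕ) :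
    ∃ C : ℝ, 0 < C ∧ ∀ a b y : ℝ, 0 < y → 3 ≤ b - a → |a| + 1 ≤ (b - a - 1) ^ L →
      (((Ico ⌈a⌉ ⌈b⌉).filter (fun t => y ≤ f t)).card : ℝ) ≤ C / y ^ s * (b - a) := by
  obtain ⟨C, hC0, hC⟩ := h.sum L
  refine ⟨C, hC0, fun a b y hy hab haL => ?_⟩
  have hys : (0 : ℝ) < y ^ s := by positivity
  rw [div_mul_eq_mul_div, le_div_iff₀ hys]
  refine le_trans ?_ (hC a b hab haL)
  rw [← nsmul_eq_mul]
  refine le_trans (card_nsmul_le_sum _ (fun t => f t ^ s) _ fun t ht => ?_)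
    (sum_le_sum_of_subset_of_nonneg (filter_subset _ _) fun t _ _ => pow_nonneg (hf t) s)
  exact pow_le_pow_left₀ hy.le (mem_filter.1 ht).2 s

/-- the number of the integers of an interval -/
theorem card_Ico_ge {a b : ℝ} : b - a - 1 ≤ ((Ico ⌈a⌉ ⌈b⌉).card : ℝ) := by
  have h2 : (⌈a⌉ : ℝ) < a + 1 := Int.ceil_lt_add_one a
  have h3 : (b : ℝ) ≤ ⌈b⌉ := Int.le_ceil b
  rw [Int.card_Ico]
  have h5 : ((⌈b⌉ - ⌈a⌉ : ℤ) : ℝ) ≤ ((⌈b⌉ - ⌈a⌉).toNat : ℝ) := by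
    exact_mod_cast Int.self_le_toNat _
  push_cast at h5
  linarith

theorem card_Ico_le {a b : ℝ} (hab : a ≤ b) : ((Ico ⌈a⌉ ⌈b⌉).card : ℝ) ≤ b - a + 1 := by
  have h1 : (a : ℝ) ≤ ⌈a⌉ := Int.le_ceil a
  have h4 : (⌈b⌉ : ℝ) < b + 1 := Int.ceil_lt_add_one b
  rw [Int.card_Ico]
  have h5 : (((⌈b⌉ - ⌈a⌉).toNat : ℤ) : ℝ) = ((⌈b⌉ - ⌈a⌉ : ℤ) : ℝ) := by
    rw [Int.toNat_of_nonneg (sub_nonneg.2 (Int.ceil_le_ceil hab))]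
  push_cast at h5
  rw [h5]
  linarith

end Pool.Agent.Q1.RS
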