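import Pool.Agent.Q1.RS.Cnt
import Pool.Agent.Q273.CG.Tree2

/-!
# Sets of dimension one where a sequence has all its terms in a set with few gaps
-/

set_option autoImplicit false

namespace Pool.Agent.Q1.RS

open Finset MeasureTheory Filter Topology Set
open scoped NNReal ENNReal

/-- the lower bound of a sequence that tends to infinity -/
theorem exists_pos_le {w : ℕ → ℝ} (hw : ∀ n, 0 < w n) (h : Tendsto w atTop atTop) :
    ∃ c : ℝ, 0 < c ∧ ∀ n, c ≤ w n := by
  obtain ⟨n₀, hn₀⟩ := eventually_atTop.1 (h.eventually_ge_atTop 1)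
  obtain ⟨m, hm, hmin⟩ := (Finset.range (n₀ + 1)).exists_min_image w ⟨0, by simp⟩
  refine ⟨min 1 (w m), lt_min one_pos (hw m), fun n => ?_⟩
  rcases le_or_gt n₀ n with hn | hn
  · exact (min_le_left _ _).trans (hn₀ n hn)
  · exact (min_le_right _ _).trans (hmin n (Finset.mem_range.2 (by omega)))

/-- a lower bound for the growth -/
theorem growth {x : ℕ → ℝ} {δ : ℝ} (hδ : 0 < δ) (hx0 : 1 < x 0)
    (hx : ∀ n, x n ^ (1 + δ) ≤ x (n + 1)) : ∀ n, x 0 ^ ((1 + δ) ^ n) ≤ x n := by
  intro n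
  induction n with
  | zero => simp
  | succ n ih =>
    refine le_trans ?_ (hx n)
    rw [pow_succ, Real.rpow_mul (by linarith)]
    exact Real.rpow_le_rpow (Real.rpow_nonneg (by linarith) _) ih (by linarith)

theorem one_lt_x {x : ℕ → ℝ} {δ : ℝ} (hδ : 0 < δ) (hx0 : 1 < x 0)
    (hx : ∀ n, x n ^ (1 + δ) ≤ x (n + 1)) (n : ℕ) : 1 < x n :=
  lt_of_lt_of_le (Real.one_lt_rpow hx0 (by positivity)) (growth hδ hx0 hx n)

/-- powers of the terms beat exponentials -/
theorem growth_tendsto {x : ℕ → ℝ} {δ : ℝ} (hδ : 0 < δ) (hx0 : 1 < x 0)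
    (hx : ∀ n, x n ^ (1 + δ) ≤ x (n + 1)) {θ : ℝ} (hθ : 0 < θ) {B : ℝ} (hB : 0 < B) :
    Tendsto (fun n => x n ^ θ / B ^ n) atTop atTop := by
  have hlog : 0 < Real.log (x 0) := Real.log_pos hx0
  have h1 : Tendsto (fun n : ℕ => (n : ℝ) / (1 + δ) ^ n) atTop (𝓝 0) := by
    have := tendsto_pow_const_div_const_pow_of_one_lt 1 (show (1 : ℝ) < 1 + δ by linarith)
    simpa using this
  have h2 : Tendsto (fun n : ℕ => (1 + δ) ^ n) atTop atTop :=
    tendsto_pow_atTop_atTop_of_one_lt (by linarith)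
  have h3 : Tendsto (fun n : ℕ => θ * Real.log (x 0) - Real.log B * ((n : ℝ) / (1 + δ) ^ n)) atTop
      (𝓝 (θ * Real.log (x 0) - Real.log B * 0)) := (h1.const_mul _).const_sub _
  have h4 : Tendsto (fun n : ℕ => (1 + δ) ^ n *
      (θ * Real.log (x 0) - Real.log B * ((n : ℝ) / (1 + δ) ^ n))) atTop atTop :=
    h2.atTop_mul_pos (by rw [mul_zero, sub_zero]; positivity) h3
  refine tendsto_atTop_mono (fun n => ?_) (Real.tendsto_exp_atTop.comp h4)
  have hpos : 0 < x n := by linarith [one_lt_x hδ hx0 hx n]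
  have hd : (1 + δ) ^ n ≠ 0 := by positivity
  have e1 : (1 + δ) ^ n * (θ * Real.log (x 0) - Real.log B * ((n : ℝ) / (1 + δ) ^ n)) =
      θ * ((1 + δ) ^ n * Real.log (x 0)) - n * Real.log B := by
    field_simp
  have e2 : (1 + δ) ^ n * Real.log (x 0) ≤ Real.log (x n) := by
    rw [← Real.log_rpow (by linarith)]
    exact Real.log_le_log (Real.rpow_pos_of_pos (by linarith) _) (growth hδ hx0 hx n)
  change Real.exp ((1 + δ) ^ n * (θ * Real.log (x 0) - Real.log B * ((n : ℝ) / (1 + δ) ^ n))) ≤ _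
  rw [e1, Real.exp_sub, Real.exp_nat_mul, Real.exp_log hB]
  refine div_le_div_of_nonneg_right ?_ (by positivity)
  rw [Real.rpow_def_of_pos hpos, mul_comm (Real.log (x n)) θ]
  exact Real.exp_le_exp.2 (mul_le_mul_of_nonneg_left e2 hθ.le)

/-- differences of the values of increasing maps to the integers -/
theorem orderEmb_sub {k : ℕ} (g : Fin k ↪o ℤ) {i j : ℕ} (hi : i < k) (hj : j < k) (hij : i ≤ j) :
    (j : ℤ) - i ≤ g ⟨j, hj⟩ - g ⟨i, hi⟩ := by
  obtain ⟨d, rfl⟩ := Nat.exists_eq_add_of_le hij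
  clear hij
  induction d with
  | zero => simp
  | succ d ih =>
    have h1 := ih (by omega)
    have h2 : g ⟨i + d, by omega⟩ < g ⟨i + (d + 1), hj⟩ := g.strictMono (by
      rw [Fin.lt_def]; simp)
    push_cast at h1 ⊢
    omega

/-- **Full dimension.** If a set `G` of integers contains at least one eighth of ... of all the short
intervals, then there is a set of dimension one of numbers `α` such that all the `⌊α x_n⌋` are
in `G`. -/
theorem dim_one_of_windows {G : Set ℤ} {x : ℕ → ℝ} {δ : ℝ} (hδ : 0 < δ) (hx0 : 1 < x 0)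
    (hx : ∀ n, x n ^ (1 + δ) ≤ x (n + 1)) {u v : ℝ} (huv : u < v)
    (hratio : ∀ n, 16 * x n ≤ x (n + 1)) (hx00 : 16 ≤ (v - u) * x 0)
    (h0 : ∀ w, u ≤ w → w + (v - u) / 2 ≤ v → ∃ S : Finset ℤ, (∀ t ∈ S, t ∈ G ∧ w * x 0 ≤ t ∧
      (t : ℝ) + 1 ≤ (w + (v - u) / 2) * x 0) ∧ (v - u) * x 0 / 16 ≤ S.card)
    (h1 : ∀ n w, u ≤ w → w + 1 / (2 * x n) ≤ v → ∃ S : Finset ℤ, (∀ t ∈ S, t ∈ G ∧
      w * x (n + 1) ≤ t ∧ (t : ℝ) + 1 ≤ (w + 1 / (2 * x n)) * x (n + 1)) ∧
      x (n + 1) / (16 * x n) ≤ S.card) :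
    dimH {α : ℝ | u ≤ α ∧ α ≤ v ∧ ∀ n, ⌊α * x n⌋ ∈ G} = 1 := by
  classical
  have hxpos : ∀ n, 0 < x n := fun n => by linarith [one_lt_x hδ hx0 hx n]
  refine le_antisymm ((dimH_mono (subset_univ _)).trans (by rw [Real.dimH_univ])) ?_
  refine le_of_forall_lt fun r hr => ?_
  obtain ⟨s, hrs, hs1⟩ := ENNReal.lt_iff_exists_nnreal_btwn.1 hr
  have hs1' : s < 1 := by exact_mod_cast hs1
  have hs0' : 0 < s := by
    have : (0 : ℝ≥0∞) < s := lt_of_le_of_lt (zero_le) hrs
    exact_mod_cast this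
  refine lt_of_lt_of_le hrs ?_
  have hs0 : (0 : ℝ) < s := by exact_mod_cast hs0'
  have hs1r : (s : ℝ) < 1 := by exact_mod_cast hs1'
  -- the scales
  set z : ℕ → ℝ := fun n => Nat.casesOn n (1 / (v - u)) x with hz
  have hz0 : z 0 = 1 / (v - u) := rfl
  have hzS : ∀ n, z (n + 1) = x n := fun n => rfl
  have hvu : 0 < v - u := by linarith
  have hzpos : ∀ n, 0 < z n := by
    intro n
    cases n with
    | zero => rw [hz0]; positivity
    | succ n => exact hxpos n
  have hzr : ∀ n, 16 * z n ≤ z (n + 1) := by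
    intro n
    cases n with
    | zero =>
      rw [hz0, hzS, mul_one_div, div_le_iff₀ hvu]
      linarith
    | succ n => exact hratio n
  set T : ℕ → ℕ := fun n => ⌊z (n + 1) / (16 * z n)⌋₊ with hT
  have hTq : ∀ n, 1 ≤ z (n + 1) / (16 * z n) := fun n => by
    rw [one_le_div (by have := hzpos n; positivity)]
    exact hzr n
  have hTpos : ∀ n, 0 < T n := fun n => Nat.floor_pos.2 (hTq n)
  have hTge : ∀ n, z (n + 1) / (32 * z n) ≤ (T n : ℝ) := by
    intro n
    have e1 := Nat.lt_floor_add_one (z (n + 1) / (16 * z n))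
    have e2 : (1 : ℝ) ≤ T n := by exact_mod_cast hTpos n
    have e3 : z (n + 1) / (16 * z n) ≤ 2 * (T n : ℝ) := by
      change _ < (T n : ℝ) + 1 at e1
      linarith
    have e4 : z (n + 1) / (32 * z n) = z (n + 1) / (16 * z n) / 2 := by
      have := hzpos n
      field_simp
      ring
    rw [e4]
    linarith
  have hprodge : ∀ n, z n / (32 ^ n * z 0) ≤ ∏ i ∈ Finset.range n, (T i : ℝ) := by
    intro n
    induction n with
    | zero =>
      have := hzpos 0
      simp only [pow_zero, one_mul, Finset.range_zero, Finset.prod_empty]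
      rw [div_self this.ne']
    | succ n ih =>
      rw [Finset.prod_range_succ]
      have h2 := hTge n
      have hn := hzpos n
      have hn1 := hzpos (n + 1)
      have h00 := hzpos 0
      calc z (n + 1) / (32 ^ (n + 1) * z 0)
          = z n / (32 ^ n * z 0) * (z (n + 1) / (32 * z n)) := by
            field_simp
            ring
        _ ≤ _ := mul_le_mul ih h2 (by positivity) (Finset.prod_nonneg fun _ _ => Nat.cast_nonneg _)
  have hlow : ∀ n, z n / (32 ^ n * z 0) * (1 / (64 * z n)) ^ (s : ℝ) =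
      z n ^ (1 - (s : ℝ)) / 32 ^ n / (z 0 * 64 ^ (s : ℝ)) := by
    intro n
    have hn := hzpos n
    rw [Real.rpow_sub hn, Real.rpow_one, one_div, Real.inv_rpow (by positivity),
      Real.mul_rpow (by norm_num) hn.le]
    have h00 := hzpos 0
    have e1 : (0 : ℝ) < 64 ^ (s : ℝ) := by positivity
    have e2 : 0 < z n ^ (s : ℝ) := Real.rpow_pos_of_pos hn _
    field_simp
  have hten1 : ∀ θ : ℝ, 0 < θ → Tendsto (fun n => z n ^ θ / 32 ^ n) atTop atTop := by
    intro θ hθ
    rw [← tendsto_add_atTop_iff_nat 1]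
    have h2 := growth_tendsto hδ hx0 hx hθ (show (0 : ℝ) < 32 by norm_num)
    have h3 : (fun n => z (n + 1) ^ θ / 32 ^ (n + 1)) = fun n => (1 / 32) * (x n ^ θ / 32 ^ n) := by
      funext n
      rw [hzS, pow_succ]
      field_simp
    rw [h3]
    exact h2.const_mul_atTop (by norm_num)
  have hz00 := hzpos 0
  have hlowpos : ∀ n, 0 < z n / (32 ^ n * z 0) * (1 / (64 * z n)) ^ (s : ℝ) := by
    intro n
    have := hzpos n
    positivity
  obtain ⟨c, hc, hcle⟩ := exists_pos_le hlowpos (by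
    have h2 := (hten1 (1 - s) (by linarith)).atTop_div_const
      (show 0 < z 0 * (64 : ℝ) ^ (s : ℝ) by positivity)
    refine h2.congr fun n => ?_
    rw [hlow])
  have key := Pool.Agent.Q273.CG.le_dimH_children (a := u) (b := v) (c := c) (s := s) hs0' hs1r.le
    hc (fun n => 1 / (2 * z n)) (fun n => 1 / (2 * z (n + 1))) T (fun n => {α : ℝ | ⌊α * x n⌋ ∈ G})
    (fun n => by have := hzpos n; positivity) ?_ ?_
    (fun n => by have := hzpos (n + 1); positivity) hTpos ?_ ?_ ?_
  · exact key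
  · -- the lengths tend to zero
    have h2 := hten1 1 one_pos
    have h3 : Tendsto z atTop atTop := by
      refine tendsto_atTop_mono (fun n => ?_) h2
      rw [Real.rpow_one]
      exact div_le_self (hzpos n).le (one_le_pow₀ (by norm_num))
    exact tendsto_const_nhds.div_atTop (h3.const_mul_atTop two_pos)
  · change 1 / (2 * z 0) ≤ v - u
    rw [hz0, mul_one_div, one_div_div]
    linarith
  · -- the product tends to infinity
    refine tendsto_atTop_mono hprodge ?_
    have h2 := (hten1 1 one_pos).atTop_div_const hz00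
    refine h2.congr fun n => ?_
    rw [Real.rpow_one, div_div]
  · intro n
    refine (hcle n).trans ?_
    have hn := hzpos n
    have hn1 := hzpos (n + 1)
    refine mul_le_mul (hprodge n) (Real.rpow_le_rpow (by positivity) ?_ hs0.le) (by positivity)
      (Finset.prod_nonneg fun _ _ => Nat.cast_nonneg _)
    calc 1 / (64 * z n) = z (n + 1) / (32 * z n) * (1 / (2 * z (n + 1))) := by
          field_simp
          norm_num
      _ ≤ _ := mul_le_mul_of_nonneg_right (hTge n) (by positivity)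
  · -- the children
    intro n w hw hwv
    have hxn := hxpos n
    have hn := hzpos n
    obtain ⟨S, hS, hcard⟩ : ∃ S : Finset ℤ, (∀ t ∈ S, t ∈ G ∧ w * x n ≤ t ∧
        (t : ℝ) + 1 ≤ (w + 1 / (2 * z n)) * x n) ∧ z (n + 1) / (16 * z n) ≤ S.card := by
      cases n with
      | zero =>
        have e1 : 1 / (2 * z 0) = (v - u) / 2 := by
          rw [hz0, mul_one_div, one_div_div]
        rw [e1] at hwv ⊢
        obtain ⟨S, hS, hc2⟩ := h0 w hw hwv
        refine ⟨S, hS, le_trans (le_of_eq ?_) hc2⟩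
        rw [hz0, hzS]
        field_simp
      | succ n =>
        obtain ⟨S, hS, hc2⟩ := h1 n w hw hwv
        exact ⟨S, hS, hc2⟩
    have hTS : T n ≤ S.card := Nat.floor_le_of_le hcard
    set g := S.orderEmbOfFin rfl with hg
    have hgS : ∀ j (hj : j < S.card), g ⟨j, hj⟩ ∈ S := fun j hj => S.orderEmbOfFin_mem rfl _
    refine ⟨fun j => if h : j < S.card then ((g ⟨j, h⟩ : ℝ) + 1 / 4) / x n else 0, ?_, ?_⟩
    · intro j hj
      have hj' : j < S.card := lt_of_lt_of_le hj hTS
      simp only [hj', dif_pos]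
      obtain ⟨e1, e2, e3⟩ := hS _ (hgS j hj')
      rw [hzS]
      refine ⟨?_, ?_, ?_⟩
      · rw [le_div_iff₀ hxn]
        linarith
      · have e4 : ((g ⟨j, hj'⟩ : ℝ) + 1 / 4) / x n + 1 / (2 * x n) =
            ((g ⟨j, hj'⟩ : ℝ) + 3 / 4) / x n := by
          field_simp
          ring
        rw [e4, div_le_iff₀ hxn]
        linarith
      · intro α hα
        have h5 := hα.1
        have h6 := hα.2
        rw [div_le_iff₀ hxn] at h5
        have e4 : ((g ⟨j, hj'⟩ : ℝ) + 1 / 4) / x n + 1 / (2 * x n) =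
            ((g ⟨j, hj'⟩ : ℝ) + 3 / 4) / x n := by
          field_simp
          ring
        rw [e4, le_div_iff₀ hxn] at h6
        have h7 : ⌊α * x n⌋ = g ⟨j, hj'⟩ := by
          rw [Int.floor_eq_iff]
          constructor <;> linarith
        change ⌊α * x n⌋ ∈ G
        rw [h7]
        exact e1
    · intro i j hij hj
      have hj' : j < S.card := lt_of_lt_of_le hj hTS
      have hi' : i < S.card := hij.trans hj'
      simp only [hj', hi', dif_pos]
      rw [hzS]
      have h8 := orderEmb_sub g hi' hj' hij.le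
      have h9 : (j : ℝ) - i ≤ (g ⟨j, hj'⟩ : ℝ) - g ⟨i, hi'⟩ := by exact_mod_cast h8
      have h10 : (1 : ℝ) ≤ (j : ℝ) - i := by
        have : (i : ℝ) + 1 ≤ j := by exact_mod_cast hij
        linarith
      have e4 : ((g ⟨i, hi'⟩ : ℝ) + 1 / 4) / x n + 1 / (2 * x n) + ((j : ℝ) - i) * (1 / (2 * x n)) =
          ((g ⟨i, hi'⟩ : ℝ) + 3 / 4 + ((j : ℝ) - i) / 2) / x n := by
        field_simp
        ring
      rw [e4]
      refine div_le_div_of_nonneg_right ?_ hxn.le
      linarith

end Pool.Agent.Q1.RS
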