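import Pool.Agent.Q1.RS.Dim

/-!
# Sets of dimension one: one condition for every term of the sequence, small densities
-/

set_option autoImplicit false

namespace Pool.Agent.Q1.RS

open Finset MeasureTheory Filter Topology Set
open scoped NNReal ENNReal

/-- the product of the terms -/
theorem prod_le_rpow {z : ℕ → ℝ} {δ : ℝ} (hδ : 0 < δ) (hz0 : 1 < z 0)
    (hz : ∀ n, z n ^ (1 + δ) ≤ z (n + 1)) (n : ℕ) :
    ∏ i ∈ Finset.range n, z i ≤ z n ^ (1 / δ) := by
  have h1 := one_lt_x hδ hz0 hz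
  induction n with
  | zero =>
    rw [Finset.range_zero, Finset.prod_empty]
    exact Real.one_le_rpow (h1 0).le (by positivity)
  | succ n ih =>
    have hn : 0 < z n := by linarith [h1 n]
    rw [Finset.prod_range_succ]
    calc (∏ i ∈ Finset.range n, z i) * z n ≤ z n ^ (1 / δ) * z n :=
          mul_le_mul_of_nonneg_right ih hn.le
      _ = (z n ^ (1 + δ)) ^ (1 / δ) := by
          rw [← Real.rpow_mul hn.le, ← Real.rpow_add_one hn.ne']
          congr 1
          field_simp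
      _ ≤ _ := Real.rpow_le_rpow (by positivity) (hz n) (by positivity)

/-- **Full dimension, general form.** -/
theorem dim_one_general {G : ℕ → Set ℤ} {x : ℕ → ℝ} {δ : ℝ} (hδ : 0 < δ) (hx0 : 1 < x 0)
    (hx : ∀ n, x n ^ (1 + δ) ≤ x (n + 1)) {u v : ℝ} (huv : u < v) {κ : ℕ → ℝ}
    (hκ0 : ∀ n, 0 < κ n) (hκ1 : ∀ n, κ n ≤ 1)
    (hκ : ∀ ε : ℝ, 0 < ε → ∀ᶠ n in atTop, x n ^ (-ε) ≤ κ n)
    (hratio : ∀ n, 1 ≤ κ n * (x (n + 1) / x n))
    (h0 : ∀ w, u ≤ w → w + (v - u) / 2 ≤ v → ∃ t : ℤ, t ∈ G 0 ∧ w * x 0 ≤ t ∧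
      (t : ℝ) + 1 ≤ (w + (v - u) / 2) * x 0)
    (h1 : ∀ n w, u ≤ w → w + 1 / (2 * x n) ≤ v → ∃ S : Finset ℤ, (∀ t ∈ S, t ∈ G (n + 1) ∧
      w * x (n + 1) ≤ t ∧ (t : ℝ) + 1 ≤ (w + 1 / (2 * x n)) * x (n + 1)) ∧
      κ n * (x (n + 1) / x n) ≤ S.card) :
    dimH {α : ℝ | u ≤ α ∧ α ≤ v ∧ ∀ n, ⌊α * x n⌋ ∈ G n} = 1 := by
  classical
  have hxpos : ∀ n, 0 < x n := fun n => by linarith [one_lt_x hδ hx0 hx n]
  refine le_antisymm ((dimH_mono (subset_univ _)).trans (by rw [Real.dimH_univ])) ?_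
  refine le_of_forall_lt fun r hr => ?_
  obtain ⟨s, hrs, hs1⟩ := ENNReal.lt_iff_exists_nnreal_btwn.1 hr
  have hs1' : s < 1 := by exact_mod_cast hs1
  have hs0' : 0 < s := by
    have : (0 : ℝ≥0∞) < s := lt_of_le_of_lt (zero_le) hrs
    exact_mod_cast this
  refine lt_of_lt_of_le hrs ?_
  have hs0 : (0 : ℝ) < s := by exact_mod_cast hs0'
  have hs1r : (s : ℝ) < 1 := by exact_mod_cast hs1'
  have hvu : 0 < v - u := by linarith
  -- the lengths
  set ℓ : ℕ → ℝ := fun n => Nat.casesOn n ((v - u) / 2) (fun m => 1 / (2 * x m)) with hℓ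
  have hℓ0 : ℓ 0 = (v - u) / 2 := rfl
  have hℓS : ∀ n, ℓ (n + 1) = 1 / (2 * x n) := fun n => rfl
  have hℓpos : ∀ n, 0 < ℓ n := by
    intro n
    cases n with
    | zero => rw [hℓ0]; positivity
    | succ n => rw [hℓS]; have := hxpos n; positivity
  -- the numbers of the children
  set T : ℕ → ℕ := fun n => Nat.casesOn n 1 (fun m => ⌊κ m * (x (m + 1) / x m)⌋₊) with hT
  have hT0 : T 0 = 1 := rfl
  have hTS : ∀ n, T (n + 1) = ⌊κ n * (x (n + 1) / x n)⌋₊ := fun n => rfl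
  have hTpos : ∀ n, 0 < T n := by
    intro n
    cases n with
    | zero => rw [hT0]; exact one_pos
    | succ n => rw [hTS]; exact Nat.floor_pos.2 (hratio n)
  have hTge : ∀ n, κ n * (x (n + 1) / x n) / 2 ≤ (T (n + 1) : ℝ) := by
    intro n
    have e1 := Nat.lt_floor_add_one (κ n * (x (n + 1) / x n))
    have e2 : (1 : ℝ) ≤ T (n + 1) := by exact_mod_cast hTpos (n + 1)
    rw [← hTS] at e1
    linarith
  have hprodge : ∀ n, x n / x 0 * (∏ i ∈ Finset.range n, κ i) / 2 ^ n ≤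
      ∏ i ∈ Finset.range (n + 1), (T i : ℝ) := by
    intro n
    induction n with
    | zero =>
      have := hxpos 0
      simp [hT0, this.ne']
    | succ n ih =>
      rw [Finset.prod_range_succ _ (n + 1), Finset.prod_range_succ _ n]
      have h2 := hTge n
      have hn := hxpos n
      have hn1 := hxpos (n + 1)
      have h00 := hxpos 0
      have hk := hκ0 n
      have hP : 0 < ∏ i ∈ Finset.range n, κ i := Finset.prod_pos fun i _ => hκ0 i
      calc x (n + 1) / x 0 * ((∏ i ∈ Finset.range n, κ i) * κ n) / 2 ^ (n + 1)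
          = (x n / x 0 * (∏ i ∈ Finset.range n, κ i) / 2 ^ n) *
            (κ n * (x (n + 1) / x n) / 2) := by
            rw [pow_succ]
            field_simp
        _ ≤ _ := mul_le_mul ih h2 (by positivity) (Finset.prod_nonneg fun _ _ => Nat.cast_nonneg _)
  obtain ⟨σ, hσ⟩ : ∃ σ : ℝ, σ = s := ⟨_, rfl⟩
  have hσ0 : 0 < σ := by rw [hσ]; exact hs0
  have hσ1 : σ < 1 := by rw [hσ]; exact hs1r
  -- the densities are at least small powers
  set ε : ℝ := (1 - σ) / 2 / (1 / δ + 1) with hε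
  have hε0 : 0 < ε := by
    rw [hε]
    have : 0 < 1 - σ := by linarith
    positivity
  have hεδ : ε * (1 / δ + 1) = (1 - σ) / 2 := by rw [hε]; field_simp
  obtain ⟨b, hb0, hb1, hb⟩ : ∃ b : ℝ, 0 < b ∧ b ≤ 1 ∧ ∀ n, b * x n ^ (-ε) ≤ κ n := by
    obtain ⟨n₀, hn₀⟩ := eventually_atTop.1 (hκ ε hε0)
    obtain ⟨m, hm, hmin⟩ := (Finset.range (n₀ + 1)).exists_min_image κ ⟨0, by simp⟩
    refine ⟨min 1 (κ m), lt_min one_pos (hκ0 m), min_le_left _ _, fun n => ?_⟩
    have hn := hxpos n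
    rcases le_or_gt n₀ n with h2 | h2
    · refine le_trans ?_ (hn₀ n h2)
      exact mul_le_of_le_one_left (by positivity) (min_le_left _ _)
    · refine le_trans ?_ (hmin n (Finset.mem_range.2 (by omega)))
      have h3 : x n ^ (-ε) ≤ 1 :=
        Real.rpow_le_one_of_one_le_of_nonpos (one_lt_x hδ hx0 hx n).le (by linarith)
      calc min 1 (κ m) * x n ^ (-ε) ≤ κ m * 1 :=
            mul_le_mul (min_le_right _ _) h3 (by positivity) (hκ0 m).le
        _ = κ m := mul_one _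
  have hκprod : ∀ n, b ^ (n + 1) * x n ^ (-((1 - σ) / 2)) ≤
      (∏ i ∈ Finset.range n, κ i) * κ n := by
    intro n
    have hn := hxpos n
    have e1 : b ^ n * (∏ i ∈ Finset.range n, x i) ^ (-ε) ≤ ∏ i ∈ Finset.range n, κ i := by
      rw [← Real.finsetProd_rpow _ _ (fun i _ => (hxpos i).le)]
      calc b ^ n * ∏ i ∈ Finset.range n, x i ^ (-ε) = ∏ i ∈ Finset.range n, (b * x i ^ (-ε)) := by
            rw [Finset.prod_mul_distrib, Finset.prod_const, Finset.card_range]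
        _ ≤ _ := Finset.prod_le_prod (fun i _ => by have := hxpos i; positivity) fun i _ => hb i
    have e2 : (x n ^ (1 / δ)) ^ (-ε) ≤ (∏ i ∈ Finset.range n, x i) ^ (-ε) :=
      Real.rpow_le_rpow_of_nonpos (Finset.prod_pos fun i _ => hxpos i)
        (prod_le_rpow hδ hx0 hx n) (by linarith)
    calc b ^ (n + 1) * x n ^ (-((1 - σ) / 2)) =
        (b ^ n * (x n ^ (1 / δ)) ^ (-ε)) * (b * x n ^ (-ε)) := by
          rw [← Real.rpow_mul hn.le, pow_succ]
          have e3 : x n ^ (-((1 - σ) / 2)) = x n ^ (1 / δ * -ε) * x n ^ (-ε) := by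
            rw [← Real.rpow_add hn]
            congr 1
            rw [← hεδ]
            ring
          rw [e3]
          ring
      _ ≤ (b ^ n * (∏ i ∈ Finset.range n, x i) ^ (-ε)) * κ n :=
          mul_le_mul (mul_le_mul_of_nonneg_left e2 (by positivity)) (hb n) (by positivity)
            (by have := Finset.prod_pos (s := Finset.range n) fun i _ => hxpos i; positivity)
      _ ≤ _ := mul_le_mul_of_nonneg_right e1 (hκ0 n).le
  -- the lower bound for the product
  have hlow : ∀ n, b / x 0 / 4 * (x n ^ ((1 - σ) / 2) / (2 / b) ^ n) ≤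
      (∏ i ∈ Finset.range (n + 1), (T i : ℝ)) * (T (n + 1) * (1 / (2 * x (n + 1)))) ^ σ := by
    intro n
    have hn := hxpos n
    have hn1 := hxpos (n + 1)
    have h00 := hxpos 0
    have hk := hκ0 n
    have hP : 0 < ∏ i ∈ Finset.range n, κ i := Finset.prod_pos fun i _ => hκ0 i
    have e1 : κ n / (4 * x n) ≤ (T (n + 1) : ℝ) * (1 / (2 * x (n + 1))) := by
      have e2 : κ n / (4 * x n) = κ n * (x (n + 1) / x n) / 2 * (1 / (2 * x (n + 1))) := by
        field_simp
        norm_num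
      rw [e2]
      exact mul_le_mul_of_nonneg_right (hTge n) (by positivity)
    have e3 : κ n / 4 / x n ^ σ ≤ (κ n / (4 * x n)) ^ σ := by
      rw [show κ n / (4 * x n) = κ n / 4 / x n by field_simp, Real.div_rpow (by positivity) hn.le]
      refine div_le_div_of_nonneg_right ?_ (by positivity)
      calc κ n / 4 = (κ n / 4) ^ (1 : ℝ) := (Real.rpow_one _).symm
        _ ≤ _ := Real.rpow_le_rpow_of_exponent_ge (by positivity) (by linarith [hκ1 n]) hσ1.le
    have e4 := hprodge n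
    have e5 : x n / x 0 * (∏ i ∈ Finset.range n, κ i) / 2 ^ n * (κ n / 4 / x n ^ σ) ≤
        (∏ i ∈ Finset.range (n + 1), (T i : ℝ)) *
          (T (n + 1) * (1 / (2 * x (n + 1)))) ^ σ :=
      mul_le_mul e4 (e3.trans (Real.rpow_le_rpow (by positivity) e1 hσ0.le)) (by positivity)
        (Finset.prod_nonneg fun _ _ => Nat.cast_nonneg _)
    refine le_trans ?_ e5
    have e6 : x n / x 0 * (∏ i ∈ Finset.range n, κ i) / 2 ^ n * (κ n / 4 / x n ^ σ) =
        x n ^ (1 - σ) / x 0 / 4 / 2 ^ n * ((∏ i ∈ Finset.range n, κ i) * κ n) := by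
      rw [Real.rpow_sub hn, Real.rpow_one]
      field_simp
    have e7 : b / x 0 / 4 * (x n ^ ((1 - σ) / 2) / (2 / b) ^ n) =
        x n ^ (1 - σ) / x 0 / 4 / 2 ^ n * (b ^ (n + 1) * x n ^ (-((1 - σ) / 2))) := by
      have e8 : x n ^ ((1 - σ) / 2) =
          x n ^ (1 - σ) * x n ^ (-((1 - σ) / 2)) := by
        rw [← Real.rpow_add hn]
        congr 1
        ring
      rw [e8, div_pow, pow_succ]
      field_simp
    rw [e6, e7]
    exact mul_le_mul_of_nonneg_left (hκprod n) (by positivity)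
  have hten : ∀ θ : ℝ, 0 < θ → Tendsto (fun n => x n ^ θ / (2 / b) ^ n) atTop atTop := fun θ hθ =>
    growth_tendsto hδ hx0 hx hθ (by positivity)
  have hxt : Tendsto x atTop atTop := by
    refine tendsto_atTop_mono (fun n => ?_) (growth_tendsto hδ hx0 hx one_pos
      (show (0 : ℝ) < 1 by norm_num))
    rw [Real.rpow_one, one_pow, div_one]
  have h00 := hxpos 0
  obtain ⟨c, hc, hcle⟩ : ∃ c : ℝ, 0 < c ∧ ∀ n, c ≤ (∏ i ∈ Finset.range n, (T i : ℝ)) *
      (T n * (1 / (2 * x n))) ^ σ := by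
    obtain ⟨c, hc, hcle⟩ := exists_pos_le
      (w := fun n => b / x 0 / 4 * (x n ^ ((1 - σ) / 2) / (2 / b) ^ n))
      (fun n => by have := hxpos n; positivity)
      ((hten ((1 - σ) / 2) (by linarith)).const_mul_atTop (by positivity))
    refine ⟨min c ((1 / (2 * x 0)) ^ σ), lt_min hc (by positivity), fun n => ?_⟩
    cases n with
    | zero =>
      rw [Finset.range_zero, Finset.prod_empty, hT0, Nat.cast_one, one_mul, one_mul]
      exact min_le_right _ _
    | succ n => exact (min_le_left _ _).trans ((hcle n).trans (hlow n))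
  have hℓt : Tendsto ℓ atTop (𝓝 0) := by
    rw [← tendsto_add_atTop_iff_nat 1]
    exact tendsto_const_nhds.div_atTop (hxt.const_mul_atTop two_pos)
  have hprodt : Tendsto (fun n => ∏ i ∈ Finset.range n, (T i : ℝ)) atTop atTop := by
    rw [← tendsto_add_atTop_iff_nat 1]
    refine tendsto_atTop_mono (fun n => ?_)
      ((hten ((1 + σ) / 2) (by linarith)).const_mul_atTop (show 0 < b / x 0 by positivity))
    refine le_trans ?_ (hprodge n)
    have hn := hxpos n
    have hP : 0 < ∏ i ∈ Finset.range n, κ i := Finset.prod_pos fun i _ => hκ0 i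
    have e1 : b ^ (n + 1) * x n ^ (-((1 - σ) / 2)) ≤ ∏ i ∈ Finset.range n, κ i :=
      (hκprod n).trans (mul_le_of_le_one_right hP.le (hκ1 n))
    have e2 : b / x 0 * (x n ^ ((1 + σ) / 2) / (2 / b) ^ n) =
        x n / x 0 * (b ^ (n + 1) * x n ^ (-((1 - σ) / 2))) / 2 ^ n := by
      have e8 : x n ^ ((1 + σ) / 2) = x n * x n ^ (-((1 - σ) / 2)) := by
        rw [mul_comm, ← Real.rpow_add_one hn.ne']
        congr 1
        ring
      rw [e8, div_pow, pow_succ]
      field_simp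
    rw [e2]
    gcongr
  rw [hσ] at hcle
  refine Pool.Agent.Q273.CG.le_dimH_children (a := u) (b := v) (c := c) (s := s) hs0' hs1r.le
    hc ℓ (fun n => 1 / (2 * x n)) T (fun n => {α : ℝ | ⌊α * x n⌋ ∈ G n})
    hℓpos hℓt (by rw [hℓ0]; linarith) (fun n => by have := hxpos n; positivity) hTpos hprodt
    hcle ?_
  -- the children
  intro n w hw hwv
  have hxn := hxpos n
  obtain ⟨S, hS, hcard⟩ : ∃ S : Finset ℤ, (∀ t ∈ S, t ∈ G n ∧ w * x n ≤ t ∧
      (t : ℝ) + 1 ≤ (w + ℓ n) * x n) ∧ T n ≤ S.card := by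
    cases n with
    | zero =>
      rw [hℓ0] at hwv ⊢
      obtain ⟨t, ht⟩ := h0 w hw hwv
      exact ⟨{t}, fun t' ht' => by rw [Finset.mem_singleton] at ht'; rw [ht']; exact ht,
        by rw [hT0, Finset.card_singleton]⟩
    | succ n =>
      rw [hℓS] at hwv ⊢
      obtain ⟨S, hS, hc2⟩ := h1 n w hw hwv
      exact ⟨S, hS, Nat.floor_le_of_le hc2⟩
  set g := S.orderEmbOfFin rfl with hg
  have hgS : ∀ j (hj : j < S.card), g ⟨j, hj⟩ ∈ S := fun j hj => S.orderEmbOfFin_mem rfl _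
  refine ⟨fun j => if h : j < S.card then ((g ⟨j, h⟩ : ℝ) + 1 / 4) / x n else 0, ?_, ?_⟩
  · intro j hj
    have hj' : j < S.card := lt_of_lt_of_le hj hcard
    simp only [hj', dif_pos]
    obtain ⟨e1, e2, e3⟩ := hS _ (hgS j hj')
    rw [hℓS]
    refine ⟨?_, ?_, ?_⟩
    · rw [le_div_iff₀ hxn]
      linarith
    · have e4 : ((g ⟨j, hj'⟩ : ℝ) + 1 / 4) / x n + 1 / (2 * x n) =
          ((g ⟨j, hj'⟩ : ℝ) + 3 / 4) / x n := by
        field_simp
        ring
      rw [e4, div_le_iff₀ hxn]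
      linarith
    · intro α hα
      have h5 := hα.1
      have h6 := hα.2
      rw [div_le_iff₀ hxn] at h5
      have e4 : ((g ⟨j, hj'⟩ : ℝ) + 1 / 4) / x n + 1 / (2 * x n) =
          ((g ⟨j, hj'⟩ : ℝ) + 3 / 4) / x n := by
        field_simp
        ring
      rw [e4, le_div_iff₀ hxn] at h6
      have h7 : ⌊α * x n⌋ = g ⟨j, hj'⟩ := by
        rw [Int.floor_eq_iff]
        constructor <;> linarith
      change ⌊α * x n⌋ ∈ G n
      rw [h7]
      exact e1
  · intro i j hij hj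
    have hj' : j < S.card := lt_of_lt_of_le hj hcard
    have hi' : i < S.card := hij.trans hj'
    simp only [hj', hi', dif_pos]
    rw [hℓS]
    have h8 := orderEmb_sub g hi' hj' hij.le
    have h9 : (j : ℝ) - i ≤ (g ⟨j, hj'⟩ : ℝ) - g ⟨i, hi'⟩ := by exact_mod_cast h8
    have h10 : (1 : ℝ) ≤ (j : ℝ) - i := by
      have : (i : ℝ) + 1 ≤ j := by exact_mod_cast hij
      linarith
    have e4 : ((g ⟨i, hi'⟩ : ℝ) + 1 / 4) / x n + 1 / (2 * x n) + ((j : ℝ) - i) * (1 / (2 * x n)) =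
        ((g ⟨i, hi'⟩ : ℝ) + 3 / 4 + ((j : ℝ) - i) / 2) / x n := by
      field_simp
      ring
    rw [e4]
    refine div_le_div_of_nonneg_right ?_ hxn.le
    linarith

end Pool.Agent.Q1.RS
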