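import Pool.Agent.Q1.RS.Mmt

/-!
# The moments along sequences of superpolynomial growth, final form
-/

set_option autoImplicit false

namespace Pool.Agent.Q1.RS

open Finset MeasureTheory Filter Topology Set
open scoped NNReal ENNReal

theorem shift_sum {g : ℕ → ℝ} {p : ℕ} {K : ℝ} (hK : 0 ≤ K)
    (h : ∀ᶠ N : ℕ in atTop, ∑ m ∈ Finset.range N, g (m + p) ≤ K * N) :
    ∀ᶠ N : ℕ in atTop, ∑ m ∈ Finset.range N, g m ≤ (K + 1) * N := by
  obtain ⟨N₀, hN₀⟩ := eventually_atTop.1 h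
  have h1 : ∀ᶠ N : ℕ in atTop, ∑ m ∈ Finset.range p, g m ≤ (N : ℝ) :=
    tendsto_natCast_atTop_atTop.eventually_ge_atTop _
  filter_upwards [h1, eventually_ge_atTop (p + N₀)] with N h2 h3
  obtain ⟨d, rfl⟩ := Nat.exists_eq_add_of_le (show p ≤ N by omega)
  rw [Finset.sum_range_add]
  have h4 := hN₀ d (by omega)
  have h5 : ∑ x ∈ Finset.range d, g (p + x) = ∑ x ∈ Finset.range d, g (x + p) :=
    Finset.sum_congr rfl fun x _ => by rw [add_comm]
  rw [h5]
  push_cast at h2 ⊢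
  have h6 : 0 ≤ K * (p : ℝ) := by positivity
  nlinarith

/-- **Bounded moments.** If `x (n + 1) ≥ x n ^ (1 + δ)`, for almost every `α` the average of the
`q`-th powers of the values of `f` at the integer parts of `α x n` is bounded by a number that
depends on `f`, `q` and `δ` only. -/
theorem moment_ae {f : ℤ → ℝ} (hf : ∀ t, 0 ≤ f t) {q : ℕ} (hq : q ≠ 0) (h : Mom f q)
    {s : ℕ} (hqs : q < s) (h' : Mom f s) {δ : ℝ} (hδ : 0 < δ) :
    ∃ K : ℝ, ∀ x : ℕ → ℝ, Tendsto x atTop atTop → (∀ᶠ n in atTop, x n ^ (1 + δ) ≤ x (n + 1)) →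
      ∀ᵐ α : ℝ, ∀ᶠ N : ℕ in atTop, ∑ n ∈ Finset.range N, f ⌊α * x n⌋ ^ q ≤ K * N := by
  obtain ⟨k, hk⟩ := exists_nat_ge (1 / δ)
  obtain ⟨C, hC0, hC⟩ := h.sum (k + 2)
  refine ⟨2 * C + 1 + 1, fun x hxt hxg => ?_⟩
  obtain ⟨n₁, hn₁⟩ := eventually_atTop.1 ((hxt.eventually_gt_atTop 1).and hxg)
  set z : ℕ → ℝ := fun j => x (j + n₁) with hz
  have hz1 : ∀ n, 1 < z n := fun n => (hn₁ (n + n₁) (by omega)).1
  have hz0 : ∀ n, 0 < z n := fun n => by linarith [hz1 n]
  have hzg : ∀ n, z n ^ (1 + δ) ≤ z (n + 1) := fun n => by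
    have := (hn₁ (n + n₁) (by omega)).2
    rwa [show n + n₁ + 1 = n + 1 + n₁ by omega] at this
  have hrat := fun n => le_ratio hδ (hz1 n) (hzg n) hk
  obtain ⟨c, hc, hcz⟩ := exists_pos_le (w := fun n => z n ^ δ / 2 ^ n)
    (fun n => by have := hz0 n; positivity) (growth_tendsto hδ (hz1 0) hzg hδ two_pos)
  have hs : Summable fun n => z n / z (n + 1) := by
    have h1 : Summable fun n : ℕ => 1 / c * (1 / 2 : ℝ) ^ n :=
      (summable_geometric_of_lt_one (by norm_num) (by norm_num)).mul_left _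
    refine Summable.of_nonneg_of_le (fun n => ?_) (fun n => ?_) h1
    · have := hz0 n
      have := hz0 (n + 1)
      positivity
    · have h2 := (hrat n).1
      have h3 := hcz n
      have h4 := hz0 n
      have h5 := hz0 (n + 1)
      rw [le_div_iff₀ (by positivity)] at h3
      have h6 : c * 2 ^ n ≤ z (n + 1) / z n := h3.trans h2
      have h7 : z n / z (n + 1) = (z (n + 1) / z n)⁻¹ := by rw [inv_div]
      rw [h7, inv_le_comm₀ (by positivity) (by positivity)]
      refine le_trans (le_of_eq ?_) h6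
      rw [one_div_pow, mul_inv, one_div, one_div, inv_inv, inv_inv]
  have hρt : Tendsto (fun n => z (n + 1) / z n) atTop atTop := by
    refine tendsto_atTop_mono (fun n => (hrat n).1) ?_
    refine tendsto_atTop_mono (fun n => ?_) (growth_tendsto hδ (hz1 0) hzg hδ two_pos)
    have := hz0 n
    exact div_le_self (by positivity) (one_le_pow₀ (by norm_num))
  have hV : ∀ V : ℕ, ∃ n₀ : ℕ, ∀ n, n₀ ≤ n → 2 ^ (k + 2) * ((V : ℝ) + 3) ≤ z (n + 1) / z n :=
    fun V => eventually_atTop.1 (hρt.eventually_ge_atTop _)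
  choose n₀ hn₀ using hV
  have key : ∀ V j : ℕ, ∀ᵐ α : ℝ, (|α| ≤ V ∧
      ∀ n, par (fun i => z (i + (n₀ V + j))) n ⌊α * z (n + 1 + (n₀ V + j))⌋ =
        ⌊α * z (n + (n₀ V + j))⌋) →
      ∀ᶠ N : ℕ in atTop, ∑ m ∈ Finset.range N, f ⌊α * z (m + 1 + (n₀ V + j))⌋ ^ q ≤
        (2 * C + 1) * N := by
    intro V j
    have := moment_one hf hq hC0 hC hqs h' V (x := fun i => z (i + (n₀ V + j))) (fun n => hz1 _)
      (fun n => ?_) (fun n => ?_) ?_
    · exact this
    · have := (hrat (n + (n₀ V + j))).2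
      rw [show n + (n₀ V + j) + 1 = n + 1 + (n₀ V + j) by omega] at this
      exact this
    · have := hn₀ V (n + (n₀ V + j)) (by omega)
      rw [show n + (n₀ V + j) + 1 = n + 1 + (n₀ V + j) by omega] at this
      exact this
    · have := (summable_nat_add_iff (n₀ V + j)).2 hs
      refine this.congr fun n => ?_
      rw [show n + (n₀ V + j) + 1 = n + 1 + (n₀ V + j) by omega]
  have key2 := ae_all_iff.2 fun V => ae_all_iff.2 fun j => key V j
  filter_upwards [key2, par_ae hz1 hs] with α h1 h2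
  obtain ⟨V, hV⟩ := exists_nat_ge |α|
  obtain ⟨j, hj⟩ := eventually_atTop.1 h2
  have h3 := h1 V j ⟨hV, fun n => by
    have h4 := hj (n + (n₀ V + j)) (by omega)
    rw [par] at h4 ⊢
    rw [show n + (n₀ V + j) + 1 = n + 1 + (n₀ V + j) by omega] at h4
    exact h4⟩
  refine shift_sum (p := 1 + (n₀ V + j) + n₁) (by positivity) ?_
  filter_upwards [h3] with N hN
  refine le_trans (le_of_eq (Finset.sum_congr rfl fun m _ => ?_)) hN
  rw [hz]
  dsimp only
  rw [show m + (1 + (n₀ V + j) + n₁) = m + 1 + (n₀ V + j) + n₁ by omega]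

end Pool.Agent.Q1.RS
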