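import Pool.Agent.Q1.RS.Cnt

/-!
# Almost sure growth along arbitrary sequences
-/

set_option autoImplicit false

namespace Pool.Agent.Q1.RS

open Finset MeasureTheory Filter Topology Set
open scoped NNReal ENNReal

/-- the measure of the `α` with `⌊α x⌋` in a finite set -/
theorem vol_le (B : Finset ℤ) {x : ℝ} (hx : x ≠ 0) :
    volume {α : ℝ | ⌊α * x⌋ ∈ B} ≤ ENNReal.ofReal (B.card / |x|) := by
  have h1 : {α : ℝ | ⌊α * x⌋ ∈ B} = ⋃ t ∈ B, (fun α : ℝ => α * x) ⁻¹' (Set.Ico (t : ℝ) (t + 1)) := by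
    ext α
    simp only [Set.mem_ofPred_eq, Set.mem_iUnion, Set.mem_preimage, Set.mem_Ico, exists_prop]
    constructor
    · intro h
      exact ⟨_, h, Int.floor_le _, Int.lt_floor_add_one _⟩
    · rintro ⟨t, ht, h2, h3⟩
      rwa [Int.floor_eq_iff.2 ⟨h2, h3⟩]
  rw [h1]
  refine (measure_biUnion_finset_le B _).trans ?_
  have h2 : ∀ t ∈ B, volume ((fun α : ℝ => α * x) ⁻¹' (Set.Ico (t : ℝ) (t + 1))) =
      ENNReal.ofReal (1 / |x|) := by
    intro t _
    rw [Real.volume_preimage_mul_right hx, Real.volume_Ico, add_sub_cancel_left, ENNReal.ofReal_one,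
      mul_one, abs_inv, one_div]
  rw [Finset.sum_congr rfl h2, Finset.sum_const, nsmul_eq_mul, ← ENNReal.ofReal_natCast,
    ← ENNReal.ofReal_mul (Nat.cast_nonneg _), mul_one_div]

/-- **Almost sure growth.** For every real sequence `x_n` and almost every `α` the values of `f` at
the integer parts of `α x_n` are at most `n ^ β` from some `n` on, if `β > 1 / s`. -/
theorem growth_ae {f : ℤ → ℝ} (hf : ∀ t, 0 ≤ f t) {s : ℕ} (h : Mom f s) {β : ℝ}
    (hβ : 1 < β * s) (x : ℕ → ℝ) :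
    ∀ᵐ α : ℝ, ∀ᶠ n : ℕ in atTop, f ⌊α * x n⌋ ≤ (n : ℝ) ^ β := by
  have hs0 : (0 : ℝ) ≤ s := Nat.cast_nonneg s
  have hβ0 : 0 < β := by
    by_contra h0
    have : β * s ≤ 0 := mul_nonpos_of_nonpos_of_nonneg (not_lt.1 h0) hs0
    linarith
  obtain ⟨C, hC0, hC⟩ := h.cnt hf 1
  -- the sequence without the small terms
  set z : ℕ → ℝ := fun n => if 1 ≤ |x n| then x n else 1 with hz
  have hz1 : ∀ n, 1 ≤ |z n| := fun n => by
    rw [hz]
    dsimp only
    split_ifs with h1
    · exact h1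
    · simp
  have hz0 : ∀ n, z n ≠ 0 := fun n h0 => by
    have := hz1 n
    rw [h0, abs_zero] at this
    linarith
  have key : ∀ V : ℕ, ∀ᵐ α : ℝ, |α| ≤ V + 1 → ∀ᶠ n : ℕ in atTop, f ⌊α * z n⌋ ≤ (n : ℝ) ^ β := by
    intro V
    have hsum : ∑' n : ℕ, volume {α : ℝ | |α| ≤ V + 1 ∧ 1 ≤ n ∧ (n : ℝ) ^ β < f ⌊α * z n⌋} ≠ ⊤ := by
      have h1 : ∀ n : ℕ, volume {α : ℝ | |α| ≤ V + 1 ∧ 1 ≤ n ∧ (n : ℝ) ^ β < f ⌊α * z n⌋} ≤
          ENNReal.ofReal (C * (4 * (V + 1)) * (n : ℝ) ^ (-(β * s))) := by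
        intro n
        rcases Nat.eq_zero_or_pos n with rfl | hn
        · have : {α : ℝ | |α| ≤ V + 1 ∧ 1 ≤ 0 ∧ ((0 : ℕ) : ℝ) ^ β < f ⌊α * z 0⌋} = ∅ := by
            ext α; simp
          rw [this, measure_empty]
          exact zero_le
        have hnr : (0 : ℝ) < n := by exact_mod_cast hn
        have hyp : (0 : ℝ) < (n : ℝ) ^ β := Real.rpow_pos_of_pos hnr _
        set X : ℝ := |z n| with hX
        have hX1 : 1 ≤ X := hz1 n
        have hV : (0 : ℝ) ≤ V := Nat.cast_nonneg V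
        set a : ℝ := -((V + 1) * X) - 1 with ha
        set b : ℝ := (V + 1) * X + 1 with hb
        have hVX : 1 ≤ (V + 1) * X := by nlinarith
        have hba : b - a = 2 * ((V + 1) * X) + 2 := by rw [ha, hb]; ring
        have h2 := hC a b _ hyp (by rw [hba]; linarith) (by
          rw [pow_one, hba, abs_of_nonpos (by rw [ha]; linarith), ha]
          linarith)
        have hsub : {α : ℝ | |α| ≤ V + 1 ∧ 1 ≤ n ∧ (n : ℝ) ^ β < f ⌊α * z n⌋} ⊆
            {α : ℝ | ⌊α * z n⌋ ∈ (Finset.Ico ⌈a⌉ ⌈b⌉).filter (fun t => (n : ℝ) ^ β ≤ f t)} := by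
          rintro α ⟨h3, _, h4⟩
          have h5 : |α * z n| ≤ (V + 1) * X := by
            rw [abs_mul]
            exact mul_le_mul_of_nonneg_right h3 (abs_nonneg _)
          have h6 := abs_le.1 h5
          have h7 := Int.floor_le (α * z n)
          have h8 := Int.lt_floor_add_one (α * z n)
          rw [Set.mem_ofPred_eq, Finset.mem_filter, Finset.mem_Ico]
          refine ⟨⟨Int.ceil_le.2 ?_, Int.lt_ceil.2 ?_⟩, h4.le⟩
          · rw [ha]; linarith [h6.1]
          · rw [hb]; linarith [h6.2]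
        refine (measure_mono hsub).trans ((vol_le _ (hz0 n)).trans (ENNReal.ofReal_le_ofReal ?_))
        rw [div_le_iff₀ (by linarith)]
        refine h2.trans ?_
        have h9 : ((n : ℝ) ^ β) ^ s = (n : ℝ) ^ (β * s) := by
          rw [← Real.rpow_mul_natCast hnr.le]
        rw [h9, Real.rpow_neg hnr.le, hba]
        have h10 : (0 : ℝ) < (n : ℝ) ^ (β * s) := Real.rpow_pos_of_pos hnr _
        calc C / (n : ℝ) ^ (β * s) * (2 * ((V + 1) * X) + 2)
            ≤ C / (n : ℝ) ^ (β * s) * (4 * ((V + 1) * X)) :=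
              mul_le_mul_of_nonneg_left (by linarith) (by positivity)
          _ = _ := by
            rw [← hX]
            field_simp
      refine ne_top_of_le_ne_top ?_ (ENNReal.tsum_le_tsum h1)
      have h3 : Summable fun n : ℕ => C * (4 * (V + 1)) * (n : ℝ) ^ (-(β * s)) :=
        (Real.summable_nat_rpow.2 (by linarith)).mul_left _
      rw [← ENNReal.ofReal_tsum_of_nonneg (fun n => by positivity) h3]
      exact ENNReal.ofReal_ne_top
    filter_upwards [ae_eventually_notMem hsum] with α hα hV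
    filter_upwards [hα, eventually_ge_atTop 1] with n hn hn1
    by_contra h2
    exact hn ⟨hV, hn1, not_le.1 h2⟩
  filter_upwards [ae_all_iff.2 key] with α hα
  obtain ⟨V, hV⟩ := exists_nat_ge |α|
  have h1 := hα V (by linarith)
  -- the values of `f` at small integers
  obtain ⟨F, hF⟩ : ∃ F : ℝ, ∀ t ∈ Finset.Icc (-(V : ℤ) - 1) V, f t ≤ F := by
    obtain ⟨F, hF⟩ := ((Finset.Icc (-(V : ℤ) - 1) V).image f).bddAbove
    exact ⟨F, fun t ht => hF (Finset.mem_coe.2 (Finset.mem_image_of_mem f ht))⟩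
  have h2 : ∀ᶠ n : ℕ in atTop, F ≤ (n : ℝ) ^ β :=
    ((tendsto_rpow_atTop hβ0).comp tendsto_natCast_atTop_atTop).eventually_ge_atTop F
  filter_upwards [h1, h2] with n hn1 hn2
  by_cases h3 : 1 ≤ |x n|
  · have h4 : z n = x n := by rw [hz]; dsimp only; rw [if_pos h3]
    rwa [h4] at hn1
  · refine (hF _ ?_).trans hn2
    have h5 : |α * x n| ≤ V := by
      rw [abs_mul]
      calc |α| * |x n| ≤ |α| * 1 := mul_le_mul_of_nonneg_left (by linarith) (abs_nonneg _)
        _ ≤ V := by linarith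
    have h6 := abs_le.1 h5
    rw [Finset.mem_Icc]
    constructor
    · have h7 := Int.lt_floor_add_one (α * x n)
      have h8 : ((-(V : ℤ) - 1 : ℤ) : ℝ) ≤ (⌊α * x n⌋ : ℤ) := by push_cast; linarith
      exact_mod_cast h8
    · have h7 := Int.floor_le (α * x n)
      have h8 : ((⌊α * x n⌋ : ℤ) : ℝ) ≤ ((V : ℤ) : ℝ) := by push_cast; linarith
      exact_mod_cast h8

end Pool.Agent.Q1.RS
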