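import Pool.Agent.Q1.RS.Fin

/-!
# Convenient forms
-/

set_option autoImplicit false

namespace Pool.Agent.Q1.RS

open Finset MeasureTheory Filter Topology Set
open scoped NNReal ENNReal

/-- all the moments are bounded: growth smaller than all powers -/
theorem growth_all {f : ℤ → ℝ} (hf : ∀ t, 0 ≤ f t) (h : ∀ s : ℕ, s ≠ 0 → Mom f s) (x : ℕ → ℝ) :
    ∀ᵐ α : ℝ, ∀ ε : ℝ, 0 < ε → ∀ᶠ n : ℕ in atTop, f ⌊α * x n⌋ ≤ (n : ℝ) ^ ε := by
  have h1 : ∀ m : ℕ, ∀ᵐ α : ℝ, ∀ᶠ n : ℕ in atTop,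
      f ⌊α * x n⌋ ≤ (n : ℝ) ^ (1 / ((m : ℝ) + 1)) := by
    intro m
    refine growth_ae hf (h (m + 2) (by omega)) ?_ x
    push_cast
    rw [div_mul_eq_mul_div, lt_div_iff₀ (by positivity)]
    linarith
  filter_upwards [ae_all_iff.2 h1] with α hα ε hε
  obtain ⟨m, hm⟩ := exists_nat_one_div_lt hε
  filter_upwards [hα m, eventually_ge_atTop 1] with n hn hn1
  exact hn.trans (Real.rpow_le_rpow_of_exponent_le (by exact_mod_cast hn1) hm.le)

/-- a subinterval which does not contain zero -/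
theorem exists_sub {u v : ℝ} (huv : u < v) : ∃ u' v' c : ℝ, u ≤ u' ∧ u' < v' ∧ v' ≤ v ∧ 0 < c ∧
    ∀ α, u' ≤ α → α ≤ v' → c ≤ |α| := by
  rcases le_or_gt v 0 with hv | hv
  · refine ⟨u, (u + v) / 2, -((u + v) / 2), le_rfl, by linarith, by linarith, by linarith,
      fun α h1 h2 => ?_⟩
    rw [abs_of_nonpos (by linarith)]
    linarith
  · refine ⟨max u (v / 2), v, v / 2, le_max_left _ _, max_lt huv (by linarith), le_rfl,
      by linarith, fun α h1 h2 => ?_⟩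
    have h3 : v / 2 ≤ α := (le_max_right _ _).trans h1
    rwa [abs_of_nonneg (by linarith)]

/-- **Full dimension, with a finite set of excluded arguments.** -/
theorem dim_mom' {f : ℤ → ℝ} (hf : ∀ t, 0 ≤ f t) {s : ℕ} (hs : s ≠ 0) (h : Mom f s) {Z : Set ℤ}
    (hZ : Z.Finite) {δ : ℝ} (hδ : 0 < δ) :
    ∃ R : ℝ, ∀ u v : ℝ, u < v → ∃ X₀ : ℝ, ∀ x : ℕ → ℝ, X₀ ≤ x 0 →
      (∀ n, x n ^ (1 + δ) ≤ x (n + 1)) →
      dimH {α : ℝ | u ≤ α ∧ α ≤ v ∧ ∀ n, ⌊α * x n⌋ ∉ Z ∧ f ⌊α * x n⌋ ≤ R} = 1 := by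
  obtain ⟨R, hR⟩ := dim_mom hf hs h hδ
  refine ⟨R, fun u v huv => ?_⟩
  obtain ⟨u', v', c, h1, h2, h3, hc, h4⟩ := exists_sub huv
  obtain ⟨X₁, hX₁⟩ := hR u' v' h2
  obtain ⟨T, hT⟩ : ∃ T : ℝ, ∀ t ∈ Z, |(t : ℝ)| < T := by
    obtain ⟨F, hF⟩ := (hZ.image fun t : ℤ => |(t : ℝ)|).bddAbove
    exact ⟨F + 1, fun t ht => lt_of_le_of_lt (hF (Set.mem_image_of_mem _ ht)) (by linarith)⟩
  refine ⟨max (max X₁ 2) ((T + 1) / c), fun x hx0 hx => ?_⟩
  have hx1 : X₁ ≤ x 0 := le_trans (le_trans (le_max_left _ _) (le_max_left _ _)) hx0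
  have hx2 : 2 ≤ x 0 := le_trans (le_trans (le_max_right _ _) (le_max_left _ _)) hx0
  have hx3 : (T + 1) / c ≤ x 0 := le_trans (le_max_right _ _) hx0
  have hmono : ∀ n, x 0 ≤ x n := by
    intro n
    refine le_trans ?_ (growth hδ (by linarith) hx n)
    calc x 0 = x 0 ^ (1 : ℝ) := (Real.rpow_one _).symm
      _ ≤ _ := Real.rpow_le_rpow_of_exponent_le (by linarith) (one_le_pow₀ (by linarith))
  refine le_antisymm ((dimH_mono (subset_univ _)).trans (by rw [Real.dimH_univ])) ?_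
  rw [← hX₁ x hx1 hx]
  refine dimH_mono fun α hα => ?_
  obtain ⟨e1, e2, e3⟩ := hα
  refine ⟨h1.trans e1, e2.trans h3, fun n => ⟨fun hmem => ?_, e3 n⟩⟩
  have e4 := hT _ hmem
  have e5 := h4 α e1 e2
  have e6 : T + 1 ≤ |α * x n| := by
    rw [div_le_iff₀ hc] at hx3
    rw [abs_mul, abs_of_pos (show 0 < x n by linarith [hmono n])]
    calc T + 1 ≤ x 0 * c := hx3
      _ = c * x 0 := mul_comm _ _
      _ ≤ |α| * x n := mul_le_mul e5 (hmono n) (by linarith) (abs_nonneg _)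
  have e7 := Int.floor_le (α * x n)
  have e8 := Int.lt_floor_add_one (α * x n)
  rw [abs_lt] at e4
  rcases le_abs.1 e6 with e9 | e9
  · linarith [e4.2]
  · linarith [e4.1]

/-- **Bounded moments, with the frequencies.** -/
theorem moment_count {f : ℤ → ℝ} (hf : ∀ t, 0 ≤ f t) {x : ℕ → ℝ} {α K : ℝ} {q N : ℕ}
    (h : ∑ n ∈ Finset.range N, f ⌊α * x n⌋ ^ q ≤ K * N) {y : ℝ} (hy : 0 < y) :
    (((Finset.range N).filter (fun n => y ≤ f ⌊α * x n⌋)).card : ℝ) ≤ K * N / y ^ q := by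
  rw [le_div_iff₀ (by positivity)]
  refine le_trans ?_ h
  rw [← nsmul_eq_mul]
  refine le_trans (Finset.card_nsmul_le_sum _ (fun n => f ⌊α * x n⌋ ^ q) _ fun n hn => ?_)
    (Finset.sum_le_sum_of_subset_of_nonneg (Finset.filter_subset _ _) fun n _ _ =>
      pow_nonneg (hf _) q)
  exact pow_le_pow_left₀ hy.le (Finset.mem_filter.1 hn).2 q

end Pool.Agent.Q1.RS
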