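import Pool.Agent.TH841.PT.Fin1
import Pool.Agent.Q1.RS.Pack

/-!
# The function that bounds the ranks over multiquadratic fields
-/

set_option autoImplicit false

namespace Pool.Agent.Q1.RS

open Finset Polynomial

open Pool.Agent.W307.SE (SelR)

open Pool.Agent.TH841.NF (EF Gen)

open Pool.Agent.TH841.NF.D (HasDiv crk rk)

open Classical in
/-- the product of the orders of the 2-Selmer groups of the twists -/
noncomputable def mq {s : ℕ} (A B : ℤ) (D₀ : ℤ[X]) (D : Fin s → ℤ[X]) (t : ℤ) : ℝ :=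
  if D₀.eval t ≠ 0 ∧ ∀ i, (D i).eval t ≠ 0 then
    ∏ T : Finset (Fin s), ((SelR (((D₀ * ∏ i ∈ T, D i).eval t) ^ 2 * A)
      (((D₀ * ∏ i ∈ T, D i).eval t) ^ 3 * B)).ncard : ℝ) else 0

theorem mq_nonneg {s : ℕ} (A B : ℤ) (D₀ : ℤ[X]) (D : Fin s → ℤ[X]) (t : ℤ) : 0 ≤ mq A B D₀ D t := by
  rw [mq]
  split_ifs
  · exact prod_nonneg fun _ _ => Nat.cast_nonneg _
  · exact le_rfl

theorem mom_mq {A B e₁ e₂ e₃ : ℤ} (hE : 4 * A ^ 3 + 27 * B ^ 2 ≠ 0)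
    (he : ∀ x : ℤ, x ^ 3 + A * x + B = (x - e₁) * (x - e₂) * (x - e₃))
    {s : ℕ} (D₀ : ℤ[X]) (hD₀ : D₀ ≠ 0) (D : Fin s → ℤ[X]) (hD : ∀ i, D i ≠ 0) {k : ℕ}
    (hk : k ≠ 0) : Mom (mq A B D₀ D) k := by
  classical
  intro L
  have hne : ∀ T : Finset (Fin s), D₀ * ∏ i ∈ T, D i ≠ 0 := fun T =>
    mul_ne_zero hD₀ (prod_ne_zero_iff.2 fun i _ => hD i)
  choose C hC using fun T : Finset (Fin s) => Pool.Agent.TH841.PT.sel_poly
    Pool.Agent.TH841.PT.avsq hE he (D₀ * ∏ i ∈ T, D i) (hne T)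
    (Fintype.card (Finset (Fin s)) * k) L
  refine ⟨∑ T, C T, fun N M hM hN => ?_⟩
  have hev : ∀ (T : Finset (Fin s)) (t : ℤ), (D₀ * ∏ i ∈ T, D i).eval t =
      D₀.eval t * ∏ i ∈ T, (D i).eval t := by
    intro T t
    rw [eval_mul, eval_prod]
  have h1 : ∑ t ∈ Ioc N (N + M), mq A B D₀ D t ^ k =
      ∑ t ∈ (Ioc N (N + M)).filter (fun t => D₀.eval t ≠ 0 ∧ ∀ i, (D i).eval t ≠ 0),
        (∏ T : Finset (Fin s), ((SelR (((D₀ * ∏ i ∈ T, D i).eval t) ^ 2 * A)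
          (((D₀ * ∏ i ∈ T, D i).eval t) ^ 3 * B)).ncard : ℝ)) ^ k := by
    rw [sum_filter]
    refine sum_congr rfl fun t _ => ?_
    rw [mq]
    split_ifs
    · rfl
    · exact zero_pow hk
  rw [h1, sum_mul]
  refine le_trans ?_ (sum_le_sum fun T _ => hC T N M (by omega) hN)
  refine (sum_le_sum fun t _ => Pool.Agent.TH841.NF.prod_pow_le _
    (fun T => Nat.cast_nonneg _) k).trans ?_
  rw [sum_comm]
  refine sum_le_sum fun T _ => ?_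
  refine sum_le_sum_of_subset_of_nonneg ?_ (fun t _ _ => by positivity)
  intro t ht
  rw [mem_filter] at ht ⊢
  refine ⟨ht.1, ?_⟩
  rw [hev]
  exact mul_ne_zero ht.2.1 (prod_ne_zero_iff.2 fun i _ => ht.2.2 i)

theorem mq_bd {A B e₁ e₂ e₃ : ℤ} (hE : 4 * A ^ 3 + 27 * B ^ 2 ≠ 0)
    (he : ∀ x : ℤ, x ^ 3 + A * x + B = (x - e₁) * (x - e₂) * (x - e₃))
    {s : ℕ} (D₀ : ℤ[X]) (D : Fin s → ℤ[X]) {t : ℤ}
    (ht : D₀.eval t ≠ 0 ∧ ∀ i, (D i).eval t ≠ 0) {F : Type} [Field F] [NumberField F]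
    (hF : Gen F (fun i => (D i).eval t)) {q : ℕ}
    (hq : HasDiv (EF ((D₀.eval t) ^ 2 * A) ((D₀.eval t) ^ 3 * B) F) q) :
    (2 : ℝ) ^ (rk (EF ((D₀.eval t) ^ 2 * A) ((D₀.eval t) ^ 3 * B) F) + q) ≤ mq A B D₀ D t := by
  have hev : ∀ (T : Finset (Fin s)) (t : ℤ), (D₀ * ∏ i ∈ T, D i).eval t =
      D₀.eval t * ∏ i ∈ T, (D i).eval t := by
    intro T t
    rw [eval_mul, eval_prod]
  have hne' : ∀ T : Finset (Fin s), (D₀ * ∏ i ∈ T, D i).eval t ≠ 0 := by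
    intro T
    rw [hev]
    exact mul_ne_zero ht.1 (prod_ne_zero_iff.2 fun i _ => ht.2 i)
  have e2 : ∀ T : Finset (Fin s), (∏ i ∈ T, (D i).eval t) ^ 2 *
      (D₀.eval t ^ 2 * A) = ((D₀ * ∏ i ∈ T, D i).eval t) ^ 2 * A := by
    intro T
    rw [hev]
    ring
  have e3 : ∀ T : Finset (Fin s), (∏ i ∈ T, (D i).eval t) ^ 3 *
      (D₀.eval t ^ 3 * B) = ((D₀ * ∏ i ∈ T, D i).eval t) ^ 3 * B := by
    intro T
    rw [hev]
    ring
  rw [mq, if_pos ht]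
  refine Pool.Agent.TH841.NF.one_field (d := fun i => (D i).eval t) hF
    (fun i => ht.2 i) (Pool.Agent.TH639.SL.disc_tw ht.1 hE) _ ?_ ?_ hq
  · intro T
    rw [e2, e3]
    exact Pool.Agent.TH841.SH.bd_selR (Pool.Agent.TH639.SL.disc_tw (hne' T) hE)
      (Pool.Agent.TH639.SL.roots_tw he _) (Pool.Agent.TH639.SL.sel_tw hE he (hne' T)).1
  · intro T
    rw [e2, e3]
    exact Pool.Agent.W307.RG.fin_tw hE he (hne' T)

end Pool.Agent.Q1.RS
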