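import Pool.Agent.Q1.RS.Chn

/-!
# The moments along sequences of superpolynomial growth
-/

set_option autoImplicit false

namespace Pool.Agent.Q1.RS

open Finset MeasureTheory Filter Topology Set
open scoped NNReal ENNReal

theorem summable_exp_rpow {η : ℝ} (hη : 0 < η) :
    Summable fun N : ℕ => Real.exp (-(N : ℝ) ^ η) := by
  obtain ⟨m, hm⟩ := exists_nat_ge (2 / η)
  have hm2 : 2 ≤ η * m := by
    rw [div_le_iff₀ hη] at hm
    linarith
  rw [← summable_nat_add_iff 1]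
  have h1 : Summable fun N : ℕ => (m.factorial : ℝ) * (1 / ((N + 1 : ℕ) : ℝ) ^ 2) := by
    have := (summable_nat_add_iff 1).2 (Real.summable_one_div_nat_pow.2 (show 1 < 2 by norm_num))
    exact this.mul_left _
  refine Summable.of_nonneg_of_le (fun _ => (Real.exp_pos _).le) (fun N => ?_) h1
  have hN : (0 : ℝ) < ((N + 1 : ℕ) : ℝ) := by positivity
  have hN1 : (1 : ℝ) ≤ ((N + 1 : ℕ) : ℝ) := by
    push_cast
    linarith [show (0 : ℝ) ≤ N from Nat.cast_nonneg N]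
  have h2 := Real.pow_div_factorial_le_exp (((N + 1 : ℕ) : ℝ) ^ η) (by positivity) m
  have h3 : ((N + 1 : ℕ) : ℝ) ^ 2 ≤ (((N + 1 : ℕ) : ℝ) ^ η) ^ m := by
    rw [← Real.rpow_mul_natCast hN.le, ← Real.rpow_natCast]
    exact Real.rpow_le_rpow_of_exponent_le hN1 (by exact_mod_cast hm2)
  have hf : (0 : ℝ) < (m.factorial : ℝ) := by exact_mod_cast Nat.factorial_pos m
  rw [Real.exp_neg, mul_one_div, inv_le_comm₀ (Real.exp_pos _) (by positivity), inv_div]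
  exact (div_le_div_of_nonneg_right h3 hf.le).trans h2

/-- the truncated exponential weight -/
noncomputable def wt (f : ℤ → ℝ) (q : ℕ) (θ : ℝ) (N : ℕ) (t : ℤ) : ℝ :=
  Real.exp (min (f t ^ q) ((N : ℝ) ^ θ) / (N : ℝ) ^ θ)

theorem wt_le {f : ℤ → ℝ} (hf : ∀ t, 0 ≤ f t) (q : ℕ) {θ : ℝ} (hθ : θ ≠ 0) (N : ℕ) (t : ℤ) :
    wt f q θ N t ≤ 1 + 2 / (N : ℝ) ^ θ * f t ^ q := by
  rw [wt]
  rcases Nat.eq_zero_or_pos N with rfl | hN
  · simp [Real.zero_rpow hθ]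
  have hN0 : 0 < (N : ℝ) ^ θ := Real.rpow_pos_of_pos (by exact_mod_cast hN) _
  have hg : 0 ≤ f t ^ q := pow_nonneg (hf t) q
  have h1 : 0 ≤ min (f t ^ q) ((N : ℝ) ^ θ) / (N : ℝ) ^ θ := div_nonneg (le_min hg hN0.le) hN0.le
  have h2 : min (f t ^ q) ((N : ℝ) ^ θ) / (N : ℝ) ^ θ ≤ 1 := by
    rw [div_le_one hN0]
    exact min_le_right _ _
  have h3 := Real.abs_exp_sub_one_le (by rwa [abs_of_nonneg h1])
  have h4 := (abs_le.1 h3).2
  rw [abs_of_nonneg h1] at h4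
  have h5 : min (f t ^ q) ((N : ℝ) ^ θ) / (N : ℝ) ^ θ ≤ f t ^ q / (N : ℝ) ^ θ :=
    div_le_div_of_nonneg_right (min_le_left _ _) hN0.le
  have h6 : 2 / (N : ℝ) ^ θ * f t ^ q = 2 * (f t ^ q / (N : ℝ) ^ θ) := by ring
  rw [h6]
  linarith

theorem moment_one {f : ℤ → ℝ} (hf : ∀ t, 0 ≤ f t) {q k : ℕ} (hq : q ≠ 0) {C : ℝ}
    (hC0 : 0 < C) (hC : ∀ a b : ℝ, 3 ≤ b - a → |a| + 1 ≤ (b - a - 1) ^ (k + 2) →
      ∑ t ∈ Finset.Ico ⌈a⌉ ⌈b⌉, f t ^ q ≤ C * (b - a))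
    {s : ℕ} (hqs : q < s) (h' : Mom f s) (V : ℕ) {x : ℕ → ℝ} (hx : ∀ n, 1 < x n)
    (hk : ∀ n, x (n + 1) ≤ (x (n + 1) / x n) ^ (k + 1))
    (hρ : ∀ n, 2 ^ (k + 2) * ((V : ℝ) + 3) ≤ x (n + 1) / x n)
    (hs : Summable fun n => x n / x (n + 1)) :
    ∀ᵐ α : ℝ, (|α| ≤ V ∧ ∀ n, par x n ⌊α * x (n + 1)⌋ = ⌊α * x n⌋) →
      ∀ᶠ N : ℕ in atTop, ∑ m ∈ Finset.range N, f ⌊α * x (m + 1)⌋ ^ q ≤ (2 * C + 1) * N := by
  have hx0 : ∀ n, 0 < x n := fun n => by linarith [hx n]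
  have hV : (0 : ℝ) ≤ V := Nat.cast_nonneg V
  have hq0 : (0 : ℝ) < q := by exact_mod_cast Nat.pos_of_ne_zero hq
  have hqs' : (q : ℝ) < s := by exact_mod_cast hqs
  have hs0 : (0 : ℝ) < s := hq0.trans hqs'
  set θ : ℝ := (q + s) / (2 * s) with hθ
  have hθ0 : 0 < θ := by positivity
  have hθ1 : θ < 1 := by
    rw [hθ, div_lt_one (by positivity)]
    linarith
  have hθq : (q : ℝ) / s < θ := by
    rw [hθ, div_lt_div_iff₀ hs0 (by positivity)]
    nlinarith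
  set T : ℕ → Finset ℤ := TV V x with hT
  have hwt0 : ∀ (N : ℕ) (t : ℤ), 0 ≤ wt f q θ N t := fun _ _ => (Real.exp_pos _).le
  have h2k : (4 : ℝ) ≤ 2 ^ (k + 2) := by
    calc (4 : ℝ) = 2 ^ 2 := by norm_num
      _ ≤ _ := pow_le_pow_right₀ (by norm_num) (by omega)
  have hρ12 : ∀ n, 12 ≤ x (n + 1) / x n := fun n => le_trans (by nlinarith) (hρ n)
  -- the bound for the children
  have hch : ∀ (N n : ℕ), ∀ t ∈ T n, ∑ t' ∈ Finset.Ico ⌈(t : ℝ) * (x (n + 1) / x n)⌉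
      ⌈((t : ℝ) + 1) * (x (n + 1) / x n)⌉, wt f q θ N t' ≤
      x (n + 1) / x n * (1 + x n / x (n + 1) + 2 * C / (N : ℝ) ^ θ) := by
    intro N n t ht
    set ρ : ℝ := x (n + 1) / x n with hρd
    have hρn := hρ12 n
    rw [← hρd] at hρn
    have hρ0 : 0 < ρ := by linarith
    have hba : ((t : ℝ) + 1) * ρ - t * ρ = ρ := by ring
    have hcard := card_Ico_le (a := (t : ℝ) * ρ) (b := ((t : ℝ) + 1) * ρ) (by linarith)
    rw [hba] at hcard
    have ha : |(t : ℝ) * ρ| + 1 ≤ (((t : ℝ) + 1) * ρ - t * ρ - 1) ^ (k + 2) := by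
      rw [hba, abs_mul, abs_of_pos hρ0]
      have e1 : |(t : ℝ)| * ρ ≤ (V * x n + 1) * ρ :=
        mul_le_mul_of_nonneg_right (abs_of_mem_TV ht) hρ0.le
      have e2 : (V * x n + 1) * ρ = V * x (n + 1) + ρ := by
        rw [hρd]
        have := hx0 n
        field_simp
      have e3 : (ρ / 2) ^ (k + 2) ≤ (ρ - 1) ^ (k + 2) :=
        pow_le_pow_left₀ (by positivity) (by linarith) _
      have e4 : (ρ / 2) ^ (k + 2) = ρ ^ (k + 1) * (ρ / 2 ^ (k + 2)) := by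
        rw [div_pow, pow_succ ρ (k + 1)]
        ring
      have e5 : (V : ℝ) + 3 ≤ ρ / 2 ^ (k + 2) := by
        rw [le_div_iff₀ (by positivity)]
        linarith [hρ n]
      have e6 : ρ ≤ ρ ^ (k + 1) := by
        calc ρ = ρ ^ 1 := (pow_one _).symm
          _ ≤ _ := pow_le_pow_right₀ (by linarith) (by omega)
      have e7 := hk n
      rw [← hρd] at e7
      have e8 : V * x (n + 1) ≤ V * ρ ^ (k + 1) := mul_le_mul_of_nonneg_left e7 hV
      rw [e2] at e1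
      refine le_trans ?_ e3
      rw [e4]
      nlinarith
    have hsum := hC _ _ (by rw [hba]; linarith) ha
    rw [hba] at hsum
    calc ∑ t' ∈ Finset.Ico ⌈(t : ℝ) * ρ⌉ ⌈((t : ℝ) + 1) * ρ⌉, wt f q θ N t'
        ≤ ∑ t' ∈ Finset.Ico ⌈(t : ℝ) * ρ⌉ ⌈((t : ℝ) + 1) * ρ⌉, (1 + 2 / (N : ℝ) ^ θ * f t' ^ q) :=
          Finset.sum_le_sum fun t' _ => wt_le hf q hθ0.ne' N t'
      _ = ((Finset.Ico ⌈(t : ℝ) * ρ⌉ ⌈((t : ℝ) + 1) * ρ⌉).card : ℝ) + 2 / (N : ℝ) ^ θ *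
          ∑ t' ∈ Finset.Ico ⌈(t : ℝ) * ρ⌉ ⌈((t : ℝ) + 1) * ρ⌉, f t' ^ q := by
          rw [Finset.sum_add_distrib, Finset.sum_const, nsmul_eq_mul, mul_one, Finset.mul_sum]
      _ ≤ (ρ + 1) + 2 / (N : ℝ) ^ θ * (C * ρ) :=
          add_le_add hcard (mul_le_mul_of_nonneg_left hsum (by positivity))
      _ = ρ * (1 + x n / x (n + 1) + 2 * C / (N : ℝ) ^ θ) := by
          have e9 : ρ * (x n / x (n + 1)) = 1 := by
            rw [hρd]
            have := hx0 n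
            have := hx0 (n + 1)
            field_simp
          rw [mul_add, mul_add, e9]
          ring
  set S : ℝ := ∑' n, x n / x (n + 1) with hS
  have hquot : ∀ n, 0 ≤ x n / x (n + 1) := fun n => by
    have := hx0 n
    have := hx0 (n + 1)
    positivity
  have hprod : ∀ N : ℕ, ∏ m ∈ Finset.range N, (1 + x m / x (m + 1) + 2 * C / (N : ℝ) ^ θ) ≤
      Real.exp (S + 2 * C * (N : ℝ) ^ (1 - θ)) := by
    intro N
    calc ∏ m ∈ Finset.range N, (1 + x m / x (m + 1) + 2 * C / (N : ℝ) ^ θ)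
        ≤ ∏ m ∈ Finset.range N, Real.exp (x m / x (m + 1) + 2 * C / (N : ℝ) ^ θ) := by
          refine Finset.prod_le_prod (fun m _ => ?_) fun m _ => ?_
          · have := hquot m
            positivity
          · have := Real.add_one_le_exp (x m / x (m + 1) + 2 * C / (N : ℝ) ^ θ)
            linarith
      _ = Real.exp (∑ m ∈ Finset.range N, x m / x (m + 1) + N * (2 * C / (N : ℝ) ^ θ)) := by
          rw [← Real.exp_sum, Finset.sum_add_distrib, Finset.sum_const, Finset.card_range,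
            nsmul_eq_mul]
      _ ≤ _ := by
          rw [Real.exp_le_exp]
          refine add_le_add (hs.sum_le_tsum _ fun n _ => hquot n) (le_of_eq ?_)
          have e1 : (N : ℝ) / (N : ℝ) ^ θ = (N : ℝ) ^ (1 - θ) := by
            rcases Nat.eq_zero_or_pos N with rfl | hN
            · simp [Real.zero_rpow (show 1 - θ ≠ 0 by linarith)]
            · rw [Real.rpow_sub (by exact_mod_cast hN), Real.rpow_one]
          calc (N : ℝ) * (2 * C / (N : ℝ) ^ θ) = 2 * C * ((N : ℝ) / (N : ℝ) ^ θ) := by ring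
            _ = _ := by rw [e1]
  have hsum : ∑' N : ℕ, volume {α : ℝ | ⌊α * x N⌋ ∈ T N ∧ Real.exp ((2 * C + 1) * (N : ℝ) ^ (1 - θ)) ≤
      Pr x T (wt f q θ N) N ⌊α * x N⌋} ≠ ⊤ := by
    have h1 : ∀ N : ℕ, volume {α : ℝ | ⌊α * x N⌋ ∈ T N ∧ Real.exp ((2 * C + 1) * (N : ℝ) ^ (1 - θ)) ≤
        Pr x T (wt f q θ N) N ⌊α * x N⌋} ≤
        ENNReal.ofReal ((T 0).card / x 0 * Real.exp S * Real.exp (-(N : ℝ) ^ (1 - θ))) := by
      intro N
      refine (vol_Pr (hx0 N) (T N) (Pr_nonneg x T (hwt0 N) N) (Real.exp_pos _)).trans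
        (ENNReal.ofReal_le_ofReal ?_)
      have hxN := hx0 N
      have hx00 := hx0 0
      have h2 := chain_sum hx0 T (hwt0 N) (κ := fun m => 1 + x m / x (m + 1) + 2 * C / (N : ℝ) ^ θ)
        (fun m => by have := hquot m; positivity) (hch N) N
      rw [div_le_iff₀ (by positivity)]
      refine h2.trans ?_
      have h3 := mul_le_mul_of_nonneg_left (hprod N)
        (show 0 ≤ (T 0).card * (x N / x 0) by positivity)
      refine h3.trans (le_of_eq ?_)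
      have h4 : Real.exp (S + 2 * C * (N : ℝ) ^ (1 - θ)) = Real.exp S * Real.exp (-(N : ℝ) ^ (1 - θ)) *
          Real.exp ((2 * C + 1) * (N : ℝ) ^ (1 - θ)) := by
        rw [← Real.exp_add, ← Real.exp_add]
        congr 1
        ring
      rw [h4]
      field_simp
    refine ne_top_of_le_ne_top ?_ (ENNReal.tsum_le_tsum h1)
    have hx00 := hx0 0
    rw [← ENNReal.ofReal_tsum_of_nonneg (fun N => by positivity)
      ((summable_exp_rpow (show 0 < 1 - θ by linarith)).mul_left _)]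
    exact ENNReal.ofReal_ne_top
  have hgr := growth_ae hf h' (β := θ / q) (by
    rw [div_mul_eq_mul_div, lt_div_iff₀ hq0, one_mul]
    rwa [div_lt_iff₀ hs0] at hθq) (fun m => x (m + 1))
  filter_upwards [ae_eventually_notMem hsum, hgr] with α h1 h2 ⟨h3, h4⟩
  -- all values are small
  have h5 : ∀ᶠ N : ℕ in atTop, ∀ m < N, f ⌊α * x (m + 1)⌋ ^ q ≤ (N : ℝ) ^ θ := by
    obtain ⟨m₀, hm₀⟩ := eventually_atTop.1 h2
    obtain ⟨F, hF⟩ : ∃ F : ℝ, ∀ m ∈ Finset.range m₀, f ⌊α * x (m + 1)⌋ ^ q ≤ F := by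
      obtain ⟨F, hF⟩ := ((Finset.range m₀).image fun m => f ⌊α * x (m + 1)⌋ ^ q).bddAbove
      exact ⟨F, fun t ht => hF (Finset.mem_coe.2 (Finset.mem_image_of_mem _ ht))⟩
    have h6 : ∀ᶠ N : ℕ in atTop, F ≤ (N : ℝ) ^ θ :=
      ((tendsto_rpow_atTop hθ0).comp tendsto_natCast_atTop_atTop).eventually_ge_atTop F
    filter_upwards [h6] with N hN m hm
    rcases lt_or_ge m m₀ with h7 | h7
    · exact (hF m (Finset.mem_range.2 h7)).trans hN
    · have h8 := pow_le_pow_left₀ (hf _) (hm₀ m h7) q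
      refine h8.trans ?_
      have h9 : ((m : ℝ) ^ (θ / (q : ℝ))) ^ q = (m : ℝ) ^ θ := by
        rw [← Real.rpow_mul_natCast (Nat.cast_nonneg m)]
        congr 1
        field_simp
      rw [h9]
      exact Real.rpow_le_rpow (Nat.cast_nonneg m) (by exact_mod_cast hm.le) hθ0.le
  filter_upwards [h1, h5, eventually_ge_atTop 1] with N hN1 hN2 hN3
  have hTN : ∀ n, ⌊α * x n⌋ ∈ T n := fun n => mem_TV hx0 h3 n
  have hNp : (0 : ℝ) < N := by exact_mod_cast hN3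
  have hNs : 0 < (N : ℝ) ^ θ := Real.rpow_pos_of_pos hNp _
  have h6 : Pr x T (wt f q θ N) N ⌊α * x N⌋ < Real.exp ((2 * C + 1) * (N : ℝ) ^ (1 - θ)) := by
    by_contra h7
    exact hN1 ⟨hTN N, not_lt.1 h7⟩
  rw [Pr_eq T _ hTN h4 N] at h6
  have h7 : ∏ m ∈ Finset.range N, wt f q θ N ⌊α * x (m + 1)⌋ =
      Real.exp ((∑ m ∈ Finset.range N, f ⌊α * x (m + 1)⌋ ^ q) / (N : ℝ) ^ θ) := by
    rw [Finset.sum_div, Real.exp_sum]
    refine Finset.prod_congr rfl fun m hm => ?_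
    rw [wt, min_eq_left (hN2 m (Finset.mem_range.1 hm))]
  rw [h7, Real.exp_lt_exp, div_lt_iff₀ hNs, mul_assoc, ← Real.rpow_add hNp, sub_add_cancel,
    Real.rpow_one] at h6
  exact h6.le

end Pool.Agent.Q1.RS
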