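import Pool.Agent.Q1.RS.PrmW

/-!
# Prime arguments: sets of dimension one
-/

set_option autoImplicit false

namespace Pool.Agent.Q1.RS

open Finset MeasureTheory Filter Topology Set

/-- **Full dimension at prime arguments.** There is a number `c` such that for every weight `f` with
bounded means over the short intervals there is `R` such that, if `x (n + 1) ≥ x n ^ c`, the set of
the `α` such that all the integer parts of `α x n` are primes at which `f ≤ R` has dimension one. -/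
theorem dim_primes : ∃ c : ℝ, 1 < c ∧ ∀ f : ℤ → ℝ, (∀ t, 0 ≤ f t) → MomP f → ∃ R : ℝ,
    ∀ u v : ℝ, 0 < u → u < v → ∃ X₀ : ℝ, ∀ x : ℕ → ℝ, X₀ ≤ x 0 → (∀ n, x n ^ c ≤ x (n + 1)) →
      dimH {α : ℝ | u ≤ α ∧ α ≤ v ∧ ∀ n, ⌊α * x n⌋.natAbs.Prime ∧ f ⌊α * x n⌋ ≤ R} = 1 := by
  obtain ⟨τ, b, hτ0, hτ1, hb0, hb1, hW⟩ := prime_window
  set c : ℝ := 2 / τ with hc
  have hc1 : 1 < c := by
    rw [hc, lt_div_iff₀ hτ0]
    linarith
  refine ⟨c, hc1, fun f hf hmom => ?_⟩
  obtain ⟨R, hR⟩ := hW f hf hmom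
  refine ⟨R, fun u v hu huv => ?_⟩
  have hvu : 0 < v - u := by linarith
  have t1 : ∀ᶠ x : ℝ in atTop, Real.log x ≤ b * x ^ (1 - τ) := by
    have h1 := (isLittleO_log_rpow_atTop (show 0 < 1 - τ by linarith)).def hb0
    filter_upwards [h1, eventually_gt_atTop (1 : ℝ)] with x h1 hx
    rwa [Real.norm_eq_abs, Real.norm_eq_abs, abs_of_pos (Real.log_pos hx),
      abs_of_nonneg (Real.rpow_nonneg (by linarith) _)] at h1
  have t2 : ∀ᶠ x : ℝ in atTop, x ^ (1 - τ) ≤ (v - u) * x := by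
    have h1 : ∀ᶠ x : ℝ in atTop, 1 / (v - u) ≤ x ^ τ :=
      (tendsto_rpow_atTop hτ0).eventually_ge_atTop _
    filter_upwards [h1, eventually_gt_atTop (1 : ℝ)] with x h1 hx
    have hx0 : 0 < x := by linarith
    have h2 : x ^ (1 - τ) * x ^ τ = x := by
      rw [← Real.rpow_add hx0, sub_add_cancel, Real.rpow_one]
    have h3 : x ^ (1 - τ) * (1 / (v - u)) ≤ x ^ (1 - τ) * x ^ τ :=
      mul_le_mul_of_nonneg_left h1 (by positivity)
    rw [h2, mul_one_div, div_le_iff₀ hvu] at h3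
    linarith
  obtain ⟨X₁, hX₁⟩ := eventually_atTop.1 ((hR u v hu huv).and (t1.and (t2.and
    (Real.tendsto_log_atTop.eventually_ge_atTop 1))))
  refine ⟨max X₁ 8, fun x hx0 hx => ?_⟩
  have hx8 : 8 ≤ x 0 := (le_max_right _ _).trans hx0
  have hx01 : 1 < x 0 := by linarith
  have hxc : ∀ n, x n ^ (1 + (c - 1)) ≤ x (n + 1) := fun n => by
    rw [add_sub_cancel]
    exact hx n
  have hx1 : ∀ n, 1 < x n := one_lt_x (by linarith) hx01 hxc
  have hxpos : ∀ n, 0 < x n := fun n => by linarith [hx1 n]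
  have hmono : ∀ n, x 0 ≤ x n := by
    intro n
    refine le_trans ?_ (growth (by linarith) hx01 hxc n)
    calc x 0 = x 0 ^ (1 : ℝ) := (Real.rpow_one _).symm
      _ ≤ _ := Real.rpow_le_rpow_of_exponent_le hx01.le (one_le_pow₀ (by linarith))
  have hP : ∀ n, _ := fun n => hX₁ (x n) (((le_max_left _ _).trans hx0).trans (hmono n))
  have hxt : Tendsto x atTop atTop := by
    refine tendsto_atTop_mono (fun n => ?_) (growth_tendsto (by linarith) hx01 hxc one_pos
      (show (0 : ℝ) < 1 by norm_num))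
    rw [Real.rpow_one, one_pow, div_one]
  -- the interleaved sequence
  obtain ⟨z, hze, hzo⟩ : ∃ z : ℕ → ℝ, (∀ k, z (2 * k) = x k) ∧
      ∀ k, z (2 * k + 1) = x (k + 1) ^ τ := by
    refine ⟨fun m => if m % 2 = 0 then x (m / 2) else x (m / 2 + 1) ^ τ, fun k => ?_, fun k => ?_⟩
    · dsimp only
      rw [if_pos (by omega), show 2 * k / 2 = k by omega]
    · dsimp only
      rw [if_neg (by omega), show (2 * k + 1) / 2 = k by omega]
  obtain ⟨κ, hκe, hκo⟩ : ∃ κ : ℕ → ℝ, (∀ k, κ (2 * k) = 1 / 8) ∧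
      ∀ k, κ (2 * k + 1) = b / Real.log (x (k + 1)) := by
    refine ⟨fun m => if m % 2 = 0 then 1 / 8 else b / Real.log (x (m / 2 + 1)),
      fun k => ?_, fun k => ?_⟩
    · dsimp only
      rw [if_pos (by omega)]
    · dsimp only
      rw [if_neg (by omega), show (2 * k + 1) / 2 = k by omega]
  obtain ⟨G, hGe, hGo⟩ : ∃ G : ℕ → Set ℤ, (∀ k, G (2 * k) = {t | t.natAbs.Prime ∧ f t ≤ R}) ∧
      ∀ k, G (2 * k + 1) = Set.univ := by
    refine ⟨fun m => if m % 2 = 0 then {t | t.natAbs.Prime ∧ f t ≤ R} else Set.univ,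
      fun k => ?_, fun k => ?_⟩
    · dsimp only
      rw [if_pos (by omega)]
    · dsimp only
      rw [if_neg (by omega)]
  have hpar : ∀ m : ℕ, (∃ k, m = 2 * k) ∨ ∃ k, m = 2 * k + 1 := fun m => by
    obtain ⟨k, hk⟩ := Nat.even_or_odd' m
    exact hk.imp (fun h => ⟨k, h⟩) (fun h => ⟨k, h⟩)
  have hsq : ∀ k, x k ^ (2 : ℝ) ≤ x (k + 1) ^ τ := by
    intro k
    calc x k ^ (2 : ℝ) = (x k ^ c) ^ τ := by
          rw [← Real.rpow_mul (hxpos k).le, hc, div_mul_cancel₀ _ hτ0.ne']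
      _ ≤ _ := Real.rpow_le_rpow (by have := hxpos k; positivity) (hx k) hτ0.le
  have hlog1 : ∀ k, 1 ≤ Real.log (x k) := fun k => (hP k).2.2.2
  have hrate : ∀ k, 8 ≤ x (k + 1) ^ τ / x k := by
    intro k
    rw [le_div_iff₀ (hxpos k)]
    refine le_trans ?_ (hsq k)
    rw [Real.rpow_two, pow_two]
    exact mul_le_mul_of_nonneg_right (hx8.trans (hmono k)) (hxpos k).le
  have hrato : ∀ k, x (k + 1) / x (k + 1) ^ τ = x (k + 1) ^ (1 - τ) := by
    intro k
    rw [Real.rpow_sub (hxpos _), Real.rpow_one]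
  have key := dim_one_general (G := G) (x := z) (δ := 1) (u := u) (v := v) (κ := κ) one_pos
    (by rw [show (0 : ℕ) = 2 * 0 from rfl, hze]; exact hx01) ?_ huv ?_ ?_ ?_ ?_ ?_ ?_
  · refine le_antisymm ((dimH_mono (subset_univ _)).trans (by rw [Real.dimH_univ])) ?_
    rw [← key]
    refine dimH_mono fun α hα => ⟨hα.1, hα.2.1, fun n => ?_⟩
    have h1 := hα.2.2 (2 * n)
    rw [hze, hGe] at h1
    exact h1
  · -- growth
    intro m
    rcases hpar m with ⟨k, rfl⟩ | ⟨k, rfl⟩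
    · rw [hze, hzo]
      norm_num
      exact_mod_cast hsq k
    · rw [hzo, show 2 * k + 1 + 1 = 2 * (k + 1) by ring, hze, ← Real.rpow_mul (hxpos _).le]
      calc x (k + 1) ^ (τ * (1 + 1)) ≤ x (k + 1) ^ (1 : ℝ) :=
            Real.rpow_le_rpow_of_exponent_le (hx1 _).le (by linarith)
        _ = x (k + 1) := Real.rpow_one _
  · intro m
    rcases hpar m with ⟨k, rfl⟩ | ⟨k, rfl⟩
    · rw [hκe]; norm_num
    · rw [hκo]
      have := hlog1 (k + 1)
      positivity
  · intro m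
    rcases hpar m with ⟨k, rfl⟩ | ⟨k, rfl⟩
    · rw [hκe]; norm_num
    · rw [hκo, div_le_one (by linarith [hlog1 (k + 1)])]
      linarith [hlog1 (k + 1)]
  · -- the densities
    intro ε hε
    have e1 : ∀ᶠ k in atTop, x k ^ (-ε) ≤ 1 / 8 := by
      have h1 := (tendsto_rpow_neg_atTop hε).comp hxt
      exact h1.eventually_le_const (by norm_num)
    have e2 : ∀ᶠ k in atTop, (x (k + 1) ^ τ) ^ (-ε) ≤ b / Real.log (x (k + 1)) := by
      have h1 : ∀ᶠ y : ℝ in atTop, Real.log y ≤ b * y ^ (τ * ε) := by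
        have h1 := (isLittleO_log_rpow_atTop (show 0 < τ * ε by positivity)).def hb0
        filter_upwards [h1, eventually_gt_atTop (1 : ℝ)] with y h1 hy
        rwa [Real.norm_eq_abs, Real.norm_eq_abs, abs_of_pos (Real.log_pos hy),
          abs_of_nonneg (Real.rpow_nonneg (by linarith) _)] at h1
      have h2 := (hxt.comp (tendsto_add_atTop_nat 1)).eventually h1
      filter_upwards [h2] with k hk
      have h3 := hxpos (k + 1)
      have h4 := hlog1 (k + 1)
      rw [le_div_iff₀ (by linarith), ← Real.rpow_mul h3.le, mul_neg, Real.rpow_neg h3.le,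
        inv_mul_le_iff₀ (by positivity), mul_comm]
      exact hk
    obtain ⟨k₀, hk₀⟩ := eventually_atTop.1 (e1.and e2)
    refine eventually_atTop.2 ⟨2 * k₀ + 1, fun m hm => ?_⟩
    rcases hpar m with ⟨k, rfl⟩ | ⟨k, rfl⟩
    · rw [hze, hκe]
      exact (hk₀ k (by omega)).1
    · rw [hzo, hκo]
      exact (hk₀ k (by omega)).2
  · -- the ratios
    intro m
    rcases hpar m with ⟨k, rfl⟩ | ⟨k, rfl⟩
    · rw [hκe, hze, hzo]
      linarith [hrate k]
    · rw [hκo, hzo, show 2 * k + 1 + 1 = 2 * (k + 1) by ring, hze, hrato, div_mul_eq_mul_div,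
        one_le_div (by linarith [hlog1 (k + 1)])]
      exact (hP (k + 1)).2.1
  · -- the first window
    intro w hw hwv
    have hz00 : z 0 = x 0 := hze 0
    have hG00 : G 0 = {t | t.natAbs.Prime ∧ f t ≤ R} := hGe 0
    rw [hz00, hG00]
    obtain ⟨S, hS, hc2⟩ := (hP 0).1 w hw (by linarith)
    have h1 : 0 < (S.card : ℝ) := by
      refine lt_of_lt_of_le ?_ hc2
      have := hxpos 0
      have := hlog1 0
      positivity
    obtain ⟨t, ht⟩ := Finset.card_pos.1 (by exact_mod_cast h1)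
    obtain ⟨e1, e2, e3⟩ := hS t ht
    refine ⟨t, e1, e2, e3.trans ?_⟩
    have e4 := (hP 0).2.2.1
    nlinarith
  · -- the windows
    intro m w hw hwv
    rcases hpar m with ⟨k, rfl⟩ | ⟨k, rfl⟩
    · rw [hze] at hwv ⊢
      rw [hzo, hGo, hκe]
      have hxk := hxpos k
      set y : ℝ := x (k + 1) ^ τ with hy
      have h8 := hrate k
      rw [← hy] at h8
      refine ⟨Finset.Ico ⌈w * y⌉ ⌈(w + 1 / (2 * x k)) * y - 1⌉, fun t ht => ⟨Set.mem_univ _, ?_, ?_⟩,
        ?_⟩
      · rw [Finset.mem_Ico] at ht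
        exact Int.ceil_le.1 ht.1
      · rw [Finset.mem_Ico] at ht
        linarith [Int.lt_ceil.1 ht.2]
      · refine le_trans ?_ (card_Ico_ge (a := w * y) (b := (w + 1 / (2 * x k)) * y - 1))
        have e1 : (w + 1 / (2 * x k)) * y = w * y + y / x k / 2 := by
          field_simp
        rw [e1]
        linarith
    · rw [hzo] at hwv ⊢
      rw [show 2 * k + 1 + 1 = 2 * (k + 1) by ring, hze, hGe, hκo, hrato]
      have hxk := hxpos (k + 1)
      have hw2 : w ≤ v := by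
        have : 0 < 1 / (2 * x (k + 1) ^ τ) := by positivity
        linarith
      obtain ⟨S, hS, hc2⟩ := (hP (k + 1)).1 w hw hw2
      refine ⟨S, fun t ht => ?_, le_trans (le_of_eq ?_) hc2⟩
      · obtain ⟨e1, e2, e3⟩ := hS t ht
        refine ⟨e1, e2, e3.trans (le_of_eq ?_)⟩
        rw [add_mul, ← hrato]
        field_simp
      · field_simp

end Pool.Agent.Q1.RS
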