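import Pool.Agent.H295R3.Hoheisel
import Pool.Agent.Q1.RS.DimG

/-!
# Prime arguments: windows
-/

set_option autoImplicit false

namespace Pool.Agent.Q1.RS

open Finset MeasureTheory Filter Topology Set

/-- the sum of `f` over the integers of the interval `(N, N + M]` is at most `C M / log M`,
uniformly for `|N| ≤ M ^ L`, for every `L` -/
def MomP (f : ℤ → ℝ) : Prop :=
  ∀ L : ℕ, ∃ C : ℝ, ∀ (N : ℤ) (M : ℕ), 2 ≤ M → |N| ≤ (M : ℤ) ^ L →
    ∑ t ∈ Finset.Ioc N (N + M), f t ≤ C * (M / Real.log M)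

/-- the number of the primes, as integers -/
theorem card_primes (X Y : ℕ) : ((Finset.Ioc X (X + Y)).filter Nat.Prime).card ≤
    ((Finset.Ioc (X : ℤ) (X + Y)).filter (fun t => t.natAbs.Prime)).card := by
  refine Finset.card_le_card_of_injOn (fun n : ℕ => (n : ℤ)) (fun n hn => ?_)
    (fun a _ b _ h => Nat.cast_injective h)
  rw [Finset.mem_coe, Finset.mem_filter, Finset.mem_Ioc] at hn ⊢
  change ((X : ℤ) < (n : ℤ) ∧ (n : ℤ) ≤ X + Y) ∧ (n : ℤ).natAbs.Prime
  refine ⟨⟨by exact_mod_cast hn.1.1, by exact_mod_cast hn.1.2⟩, ?_⟩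
  rw [Int.natAbs_natCast]
  exact hn.2

/-- **windows with many good primes** -/
theorem prime_window : ∃ τ b : ℝ, 0 < τ ∧ τ < 1 / 2 ∧ 0 < b ∧ b ≤ 1 / 16 ∧
    ∀ f : ℤ → ℝ, (∀ t, 0 ≤ f t) → MomP f → ∃ R : ℝ, ∀ u v : ℝ, 0 < u → u < v →
    ∀ᶠ x : ℝ in atTop, ∀ w : ℝ, u ≤ w → w ≤ v → ∃ S : Finset ℤ,
      (∀ t ∈ S, (t.natAbs.Prime ∧ f t ≤ R) ∧ w * x ≤ t ∧ (t : ℝ) + 1 ≤ w * x + x ^ (1 - τ) / 2) ∧
      b * x ^ (1 - τ) / Real.log x ≤ S.card := by
  obtain ⟨δ, η', hδ0, hδ1, hη', X₀, hX₀, hH'⟩ := Pool.Agent.H295R3.D.hoheisel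
  set η : ℝ := min η' 1 with hη
  have hη0 : 0 < η := lt_min hη' one_pos
  have hη1 : η ≤ 1 := min_le_right _ _
  have hH : ∀ X Y : ℕ, X₀ ≤ X → (X : ℝ) ^ (1 - δ) ≤ Y → Y ≤ X →
      η * Y / Real.log X ≤ (((Finset.Ioc X (X + Y)).filter Nat.Prime).card : ℝ) := by
    intro X Y h1 h2 h3
    refine le_trans ?_ (hH' X Y h1 h2 h3)
    have h4 : (1 : ℝ) ≤ X := by
      have : 1 ≤ X := by omega
      exact_mod_cast this
    have h5 : 0 ≤ Real.log X := Real.log_nonneg h4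
    refine div_le_div_of_nonneg_right ?_ h5
    exact mul_le_mul_of_nonneg_right (min_le_left _ _) (Nat.cast_nonneg _)
  set τ : ℝ := δ / 2 with hτ
  have hτ0 : 0 < τ := by positivity
  have hτ1 : τ < 1 / 2 := by rw [hτ]; linarith
  refine ⟨τ, η / 16, hτ0, hτ1, by positivity, by linarith, fun f hf hmom => ?_⟩
  obtain ⟨C', hC'⟩ := hmom 3
  set C : ℝ := max C' 1 with hCd
  have hC0 : 0 < C := lt_of_lt_of_le one_pos (le_max_right _ _)
  set θ : ℝ := 1 - τ with hθ
  have hθ0 : 1 / 2 < θ := by rw [hθ]; linarith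
  have hθ1 : θ < 1 := by rw [hθ]; linarith
  set R : ℝ := 16 * C / (η * θ) with hR
  have hR0 : 0 < R := by positivity
  refine ⟨R, fun u v hu huv => ?_⟩
  have hv : 0 < v := by linarith
  have t1 : ∀ᶠ x : ℝ in atTop, 12 ≤ x ^ θ :=
    (tendsto_rpow_atTop (by linarith)).eventually_ge_atTop _
  have t2 : ∀ᶠ x : ℝ in atTop, 4 * (v + 1) ≤ x ^ τ :=
    (tendsto_rpow_atTop hτ0).eventually_ge_atTop _
  have t3 : ∀ᶠ x : ℝ in atTop, 1 / u ≤ x ^ τ :=
    (tendsto_rpow_atTop hτ0).eventually_ge_atTop _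
  have t4 : ∀ᶠ x : ℝ in atTop, 4 ≤ x ^ (θ / 2) :=
    (tendsto_rpow_atTop (by linarith)).eventually_ge_atTop _
  have t5 : ∀ᶠ x : ℝ in atTop, 64 * (v + 2) ≤ x ^ (3 * θ - 1) :=
    (tendsto_rpow_atTop (by linarith)).eventually_ge_atTop _
  have t6 : ∀ᶠ x : ℝ in atTop, max (max 2 (v + 1)) ((X₀ : ℝ) / u) ≤ x := eventually_ge_atTop _
  filter_upwards [t1, t2, t3, t4, t5, t6] with x h1 h2 h3 h4 h5 h6
  intro w hw1 hw2
  simp only [max_le_iff] at h6
  obtain ⟨⟨h6a, h6b⟩, h6c⟩ := h6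
  have hx0 : 0 < x := by linarith
  have hx1 : 1 < x := by linarith
  have hlog : 0 < Real.log x := Real.log_pos hx1
  have hwx0 : 0 < w * x := mul_pos (by linarith) hx0
  have hxθ : x ^ θ * x ^ τ = x := by
    rw [← Real.rpow_add hx0, hθ, sub_add_cancel, Real.rpow_one]
  have hxθ0 : 0 < x ^ θ := by positivity
  set X : ℕ := ⌈w * x⌉₊ with hX
  set Y : ℕ := ⌊x ^ θ / 2 - 2⌋₊ with hY
  have hX1 : w * x ≤ X := Nat.le_ceil _
  have hX2 : (X : ℝ) < w * x + 1 := Nat.ceil_lt_add_one hwx0.le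
  have hY1 : (Y : ℝ) ≤ x ^ θ / 2 - 2 := Nat.floor_le (by linarith)
  have hY2 : x ^ θ / 2 - 2 < Y + 1 := Nat.lt_floor_add_one _
  have hY3 : x ^ θ / 4 ≤ Y := by linarith
  have hXv : (X : ℝ) ≤ (v + 1) * x := by
    have : w * x ≤ v * x := mul_le_mul_of_nonneg_right hw2 hx0.le
    linarith
  have hXu : u * x ≤ X := le_trans (mul_le_mul_of_nonneg_right hw1 hx0.le) hX1
  have hXX : X₀ ≤ X := by
    have h7 : (X₀ : ℝ) ≤ u * x := by
      rw [div_le_iff₀ hu] at h6c
      linarith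
    exact_mod_cast h7.trans hXu
  have hXpos : (0 : ℝ) < X := lt_of_lt_of_le (by positivity) hXu
  have hXY : (X : ℝ) ^ (1 - δ) ≤ Y := by
    have e1 : (X : ℝ) ^ (1 - δ) ≤ ((v + 1) * x) ^ (1 - δ) :=
      Real.rpow_le_rpow hXpos.le hXv (by linarith)
    have e2 : ((v + 1) * x) ^ (1 - δ) = (v + 1) ^ (1 - δ) * x ^ (1 - δ) :=
      Real.mul_rpow (by linarith) hx0.le
    have e3 : (v + 1) ^ (1 - δ) ≤ v + 1 := by
      calc (v + 1) ^ (1 - δ) ≤ (v + 1) ^ (1 : ℝ) :=
            Real.rpow_le_rpow_of_exponent_le (by linarith) (by linarith)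
        _ = v + 1 := Real.rpow_one _
    have e4 : x ^ θ = x ^ (1 - δ) * x ^ τ := by
      rw [← Real.rpow_add hx0]
      congr 1
      rw [hθ, hτ]
      ring
    have e5 : 0 < x ^ (1 - δ) := by positivity
    have e6 : (v + 1) * x ^ (1 - δ) ≤ x ^ θ / 4 := by
      rw [e4]
      nlinarith
    have e7 : (v + 1) ^ (1 - δ) * x ^ (1 - δ) ≤ (v + 1) * x ^ (1 - δ) :=
      mul_le_mul_of_nonneg_right e3 e5.le
    linarith
  have hYX : Y ≤ X := by
    have e1 : x ^ θ ≤ u * x := by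
      have e2 : x ^ θ * (1 / u) ≤ x ^ θ * x ^ τ := mul_le_mul_of_nonneg_left h3 hxθ0.le
      rw [hxθ, mul_one_div, div_le_iff₀ hu] at e2
      linarith
    have e3 : (Y : ℝ) ≤ X := by linarith
    exact_mod_cast e3
  have hcard := hH X Y hXX hXY hYX
  have hlogX : Real.log X ≤ 2 * Real.log x := by
    have e1 : Real.log X ≤ Real.log (x * x) := by
      refine Real.log_le_log hXpos (hXv.trans ?_)
      exact mul_le_mul_of_nonneg_right h6b hx0.le
    rw [Real.log_mul hx0.ne' hx0.ne'] at e1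
    linarith
  have hX1' : (1 : ℝ) < X := by
    have : 2 ≤ X := hX₀.trans hXX
    have : (2 : ℝ) ≤ X := by exact_mod_cast this
    linarith
  have hlogX0 : 0 < Real.log X := Real.log_pos hX1'
  have htot : η * x ^ θ / (8 * Real.log x) ≤
      (((Finset.Ioc (X : ℤ) (X + Y)).filter (fun t => t.natAbs.Prime)).card : ℝ) := by
    refine le_trans ?_ (hcard.trans (Nat.cast_le.2 (card_primes X Y)))
    rw [div_le_div_iff₀ (by positivity) hlogX0]
    have e1 : η * x ^ θ * Real.log X ≤ η * x ^ θ * (2 * Real.log x) :=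
      mul_le_mul_of_nonneg_left hlogX (by positivity)
    have e2 : η * (x ^ θ / 4) * (8 * Real.log x) ≤ η * Y * (8 * Real.log x) :=
      mul_le_mul_of_nonneg_right (mul_le_mul_of_nonneg_left hY3 hη0.le) (by positivity)
    nlinarith
  -- the sum of `f`
  have hY2' : 2 ≤ Y := by
    have : (2 : ℝ) ≤ Y := by linarith
    exact_mod_cast this
  have hYpos : (0 : ℝ) < Y := by
    have : (2 : ℝ) ≤ Y := by exact_mod_cast hY2'
    linarith
  have hNM : |(X : ℤ)| ≤ (Y : ℤ) ^ 3 := by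
    rw [abs_of_nonneg (Int.natCast_nonneg X)]
    have e1 : (X : ℝ) ≤ (Y : ℝ) ^ 3 := by
      have e2 : (x ^ θ / 4) ^ 3 ≤ (Y : ℝ) ^ 3 := pow_le_pow_left₀ (by positivity) hY3 3
      have e3 : (x ^ θ / 4) ^ 3 = x ^ (3 * θ - 1) * x / 64 := by
        rw [div_pow, ← Real.rpow_mul_natCast hx0.le, ← Real.rpow_add_one hx0.ne']
        have e4 : θ * ((3 : ℕ) : ℝ) = 3 * θ - 1 + 1 := by push_cast; ring
        rw [e4]
        norm_num
      rw [e3] at e2
      have e5 : 64 * (v + 2) * x ≤ x ^ (3 * θ - 1) * x := mul_le_mul_of_nonneg_right h5 hx0.le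
      nlinarith
    exact_mod_cast e1
  have hsum := hC' (X : ℤ) Y hY2' hNM
  have hlogY : θ / 2 * Real.log x ≤ Real.log Y := by
    have e1 : x ^ (θ / 2) ≤ Y := by
      refine le_trans ?_ hY3
      have e2 : x ^ θ = x ^ (θ / 2) * x ^ (θ / 2) := by
        rw [← Real.rpow_add hx0]
        congr 1
        ring
      rw [e2]
      nlinarith
    have e3 := Real.log_le_log (by positivity) e1
    rwa [Real.log_rpow hx0] at e3
  have hlogY0 : 0 < Real.log Y := lt_of_lt_of_le (by positivity) hlogY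
  have hsum2 : ∑ t ∈ Finset.Ioc (X : ℤ) (X + Y), f t ≤ C * (x ^ θ / (θ * Real.log x)) := by
    refine hsum.trans ?_
    have e0 : (0 : ℝ) ≤ Y / Real.log Y := by positivity
    calc C' * (Y / Real.log Y) ≤ C * (Y / Real.log Y) :=
          mul_le_mul_of_nonneg_right (le_max_left _ _) e0
      _ ≤ C * (x ^ θ / (θ * Real.log x)) := by
          refine mul_le_mul_of_nonneg_left ?_ hC0.le
          rw [div_le_div_iff₀ hlogY0 (by positivity)]
          have e1 : (Y : ℝ) * (θ * Real.log x) ≤ x ^ θ / 2 * (θ * Real.log x) :=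
            mul_le_mul_of_nonneg_right (by linarith) (by positivity)
          nlinarith
  set P := (Finset.Ioc (X : ℤ) (X + Y)).filter (fun t => t.natAbs.Prime) with hP
  refine ⟨P.filter (fun t => ¬ R < f t), fun t ht => ?_, ?_⟩
  · rw [Finset.mem_filter, hP, Finset.mem_filter, Finset.mem_Ioc] at ht
    obtain ⟨⟨⟨e1, e2⟩, e3⟩, e4⟩ := ht
    refine ⟨⟨e3, not_lt.1 e4⟩, ?_, ?_⟩
    · have : (X : ℝ) < t := by exact_mod_cast e1
      linarith
    · have : (t : ℝ) ≤ X + Y := by exact_mod_cast e2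
      linarith
  · have hbad : ((P.filter (fun t => R < f t)).card : ℝ) ≤ η * x ^ θ / (16 * Real.log x) := by
      have e1 : ((P.filter (fun t => R < f t)).card : ℝ) * R ≤
          ∑ t ∈ Finset.Ioc (X : ℤ) (X + Y), f t := by
        rw [← nsmul_eq_mul]
        refine le_trans (Finset.card_nsmul_le_sum _ f _ fun t ht => (Finset.mem_filter.1 ht).2.le)
          (Finset.sum_le_sum_of_subset_of_nonneg ((Finset.filter_subset _ _).trans
            (Finset.filter_subset _ _)) fun t _ _ => hf t)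
      have e2 := e1.trans hsum2
      rw [← le_div_iff₀ hR0] at e2
      refine e2.trans (le_of_eq ?_)
      rw [hR]
      have : θ ≠ 0 := by linarith
      field_simp
    have e3 := Finset.card_filter_add_card_filter_not (s := P) (fun t => R < f t)
    have e4 : ((P.filter (fun t => R < f t)).card : ℝ) +
        ((P.filter (fun t => ¬ R < f t)).card : ℝ) = (P.card : ℝ) := by exact_mod_cast e3
    have e5 : η * x ^ θ / (8 * Real.log x) = 2 * (η * x ^ θ / (16 * Real.log x)) := by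
      field_simp
      norm_num
    have e6 : η / 16 * x ^ θ / Real.log x = η * x ^ θ / (16 * Real.log x) := by
      field_simp
    rw [e6]
    rw [e5] at htot
    linarith

end Pool.Agent.Q1.RS
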