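import Pool.Agent.Q1.RS.Frq

/-!
# Sets whose density is zero in all the short intervals
-/

set_option autoImplicit false

namespace Pool.Agent.Q1.RS

open Finset MeasureTheory Filter Topology Set

open Classical in
/-- the set `B` has density zero in the intervals `(N, N + M]`, uniformly for `|N| ≤ M ^ L`, for
every `L` -/
def UDZ (B : Set ℤ) : Prop :=
  ∀ (L : ℕ) (ε : ℝ), 0 < ε → ∃ M₀ : ℕ, ∀ (N : ℤ) (M : ℕ), M₀ ≤ M → |N| ≤ (M : ℤ) ^ L →
    (((Finset.Ioc N (N + M)).filter (fun t => t ∈ B)).card : ℝ) ≤ ε * M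

open Classical in
/-- the indicator function of the large members of `B` -/
noncomputable def ind (B : Set ℤ) (T : ℝ) (t : ℤ) : ℝ := if t ∈ B ∧ T < |(t : ℝ)| then 1 else 0

theorem ind_nonneg (B : Set ℤ) (T : ℝ) (t : ℤ) : 0 ≤ ind B T t := by
  rw [ind]
  split_ifs
  · exact zero_le_one
  · exact le_rfl

open Classical in
theorem sum_ind (B : Set ℤ) (T : ℝ) (S : Finset ℤ) {j : ℕ} (hj : j ≠ 0) :
    ∑ t ∈ S, ind B T t ^ j = ((S.filter (fun t => t ∈ B ∧ T < |(t : ℝ)|)).card : ℝ) := by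
  rw [Finset.card_filter]
  push_cast
  refine Finset.sum_congr rfl fun t _ => ?_
  rw [ind]
  split_ifs
  · exact one_pow j
  · exact zero_pow hj

/-- the sums of the indicator functions -/
theorem UDZ.sum {B : Set ℤ} (h : UDZ B) (L : ℕ) {ε : ℝ} (hε : 0 < ε) :
    ∃ T : ℝ, ∀ a b : ℝ, 3 ≤ b - a → |a| + 1 ≤ (b - a - 1) ^ L →
      ∑ t ∈ Finset.Ico ⌈a⌉ ⌈b⌉, ind B T t ≤ ε * (b - a) := by
  classical
  obtain ⟨M₀, hM₀⟩ := h L (ε / 2) (by positivity)
  refine ⟨((M₀ : ℝ) + 3) ^ L + (M₀ + 3), fun a b hab haL => ?_⟩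
  have h1 : (a : ℝ) ≤ ⌈a⌉ := Int.le_ceil a
  have h2 : (⌈a⌉ : ℝ) < a + 1 := Int.ceil_lt_add_one a
  have h3 : (b : ℝ) ≤ ⌈b⌉ := Int.le_ceil b
  have h4 : (⌈b⌉ : ℝ) < b + 1 := Int.ceil_lt_add_one b
  have h0 := sum_ind B (((M₀ : ℝ) + 3) ^ L + (M₀ + 3)) (Finset.Ico ⌈a⌉ ⌈b⌉) one_ne_zero
  simp only [pow_one] at h0
  rw [h0]
  rcases le_or_gt (b - a) ((M₀ : ℝ) + 1) with hs | hs
  · -- a short window
    have h5 : (Finset.Ico ⌈a⌉ ⌈b⌉).filter (fun t : ℤ => t ∈ B ∧
        ((M₀ : ℝ) + 3) ^ L + (M₀ + 3) < |(t : ℝ)|) = ∅ := by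
      rw [Finset.filter_eq_empty_iff]
      rintro t ht ⟨_, h6⟩
      rw [Finset.mem_Ico, Int.ceil_le, Int.lt_ceil] at ht
      have h7 : |a| + 1 ≤ ((M₀ : ℝ) + 3) ^ L :=
        haL.trans (pow_le_pow_left₀ (by linarith) (by linarith) L)
      have h8 : |(t : ℝ)| ≤ |a| + (b - a) := by
        rw [abs_le]
        constructor
        · linarith [neg_abs_le a, ht.1]
        · linarith [le_abs_self a, ht.2]
      linarith
    rw [h5, Finset.card_empty, Nat.cast_zero]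
    have : 0 < b - a := by linarith
    positivity
  · -- a long window
    have hab' : ⌈a⌉ + 2 ≤ ⌈b⌉ := by
      have : (⌈a⌉ : ℝ) + 2 ≤ ⌈b⌉ := by linarith
      exact_mod_cast this
    set M : ℕ := (⌈b⌉ - ⌈a⌉).toNat with hM
    have hMz : (M : ℤ) = ⌈b⌉ - ⌈a⌉ := Int.toNat_of_nonneg (by omega)
    have hMr : (M : ℝ) = ⌈b⌉ - ⌈a⌉ := by exact_mod_cast hMz
    have hset : Finset.Ico ⌈a⌉ ⌈b⌉ = Finset.Ioc (⌈a⌉ - 1) (⌈a⌉ - 1 + M) := by
      ext t
      rw [Finset.mem_Ico, Finset.mem_Ioc, hMz]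
      omega
    have hMM : M₀ ≤ M := by
      have h5 : (M₀ : ℝ) ≤ M := by rw [hMr]; linarith
      exact_mod_cast h5
    have hN : |⌈a⌉ - 1| ≤ (M : ℤ) ^ L := by
      have e1 : |((⌈a⌉ - 1 : ℤ) : ℝ)| ≤ |a| + 1 := by
        push_cast
        rw [abs_le]
        constructor
        · linarith [neg_abs_le a]
        · linarith [le_abs_self a]
      have e2 : (b - a - 1) ^ L ≤ (M : ℝ) ^ L :=
        pow_le_pow_left₀ (by linarith) (by rw [hMr]; linarith) L
      have e3 : |((⌈a⌉ - 1 : ℤ) : ℝ)| ≤ (M : ℝ) ^ L := e1.trans (haL.trans e2)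
      exact_mod_cast e3
    have h5 := hM₀ (⌈a⌉ - 1) M hMM hN
    rw [← hset] at h5
    refine le_trans (Nat.cast_le.2 (Finset.card_le_card fun t ht => ?_)) (h5.trans ?_)
    · rw [Finset.mem_filter] at ht ⊢
      exact ⟨ht.1, ht.2.1⟩
    · have h6 : (M : ℝ) ≤ 2 * (b - a) := by rw [hMr]; linarith
      calc ε / 2 * M ≤ ε / 2 * (2 * (b - a)) := mul_le_mul_of_nonneg_left h6 (by positivity)
        _ = ε * (b - a) := by ring

open Classical in
/-- **Density zero along almost all sequences.** -/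
theorem UDZ.freq {B : Set ℤ} (h : UDZ B) {δ : ℝ} (hδ : 0 < δ) {x : ℕ → ℝ}
    (hxt : Tendsto x atTop atTop) (hxg : ∀ᶠ n in atTop, x n ^ (1 + δ) ≤ x (n + 1)) :
    ∀ᵐ α : ℝ, ∀ ε : ℝ, 0 < ε → ∀ᶠ N : ℕ in atTop,
      (((Finset.range N).filter (fun n => ⌊α * x n⌋ ∈ B)).card : ℝ) ≤ ε * N := by
  obtain ⟨k, hk⟩ := exists_nat_ge (1 / δ)
  have key : ∀ m : ℕ, ∀ᵐ α : ℝ, α ≠ 0 → ∀ᶠ N : ℕ in atTop,
      (((Finset.range N).filter (fun n => ⌊α * x n⌋ ∈ B)).card : ℝ) ≤
        1 / ((m : ℝ) + 1) * N := by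
    intro m
    set η : ℝ := 1 / (5 * ((m : ℝ) + 1)) with hη
    have hη0 : 0 < η := by positivity
    obtain ⟨T, hT⟩ := h.sum (k + 2) hη0
    set g : ℤ → ℝ := fun t => 1 / η * ind B T t with hg
    have hg0 : ∀ t, 0 ≤ g t := fun t => mul_nonneg (by positivity) (ind_nonneg B T t)
    have hg1 : ∀ a b : ℝ, 3 ≤ b - a → |a| + 1 ≤ (b - a - 1) ^ (k + 2) →
        ∑ t ∈ Finset.Ico ⌈a⌉ ⌈b⌉, g t ^ 1 ≤ 1 * (b - a) := by
      intro a b hab ha
      simp only [pow_one, hg]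
      rw [← Finset.mul_sum]
      calc 1 / η * ∑ t ∈ Finset.Ico ⌈a⌉ ⌈b⌉, ind B T t ≤ 1 / η * (η * (b - a)) :=
            mul_le_mul_of_nonneg_left (hT a b hab ha) (by positivity)
        _ = 1 * (b - a) := by field_simp
    have hg2 : Mom g 2 := by
      intro L
      refine ⟨(1 / η) ^ 2, fun N M _ _ => ?_⟩
      simp only [hg, mul_pow]
      rw [← Finset.mul_sum, sum_ind B T _ two_ne_zero]
      refine mul_le_mul_of_nonneg_left ?_ (by positivity)
      have h1 := Finset.card_filter_le (Finset.Ioc N (N + M))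
        (fun t : ℤ => t ∈ B ∧ T < |(t : ℝ)|)
      rw [Int.card_Ioc, add_sub_cancel_left, Int.toNat_natCast] at h1
      exact_mod_cast h1
    filter_upwards [moment_ae_C hg0 one_ne_zero hδ hk one_pos hg1 one_lt_two hg2 hxt hxg]
      with α hα hα0
    -- the terms are large
    have hlarge : ∀ᶠ n : ℕ in atTop, T < |((⌊α * x n⌋ : ℤ) : ℝ)| := by
      have h1 := hxt.eventually_ge_atTop ((|T| + 2) / |α|)
      filter_upwards [h1, hxt.eventually_gt_atTop 0] with n hn hn0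
      have h2 : |T| + 2 ≤ |α * x n| := by
        rw [abs_mul, abs_of_pos hn0]
        rw [div_le_iff₀ (abs_pos.2 hα0)] at hn
        linarith
      have h3 := Int.floor_le (α * x n)
      have h4 := Int.lt_floor_add_one (α * x n)
      have h5 : |α * x n| - 1 ≤ |((⌊α * x n⌋ : ℤ) : ℝ)| := by
        rcases le_or_gt 0 (α * x n) with h6 | h6
        · rw [abs_of_nonneg h6]
          exact le_trans (by linarith) (le_abs_self _)
        · rw [abs_of_neg h6]
          exact le_trans (by linarith) (neg_le_abs _)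
      linarith [le_abs_self T]
    obtain ⟨n₀, hn₀⟩ := eventually_atTop.1 hlarge
    have h6 : ∀ᶠ N : ℕ in atTop, (n₀ : ℝ) ≤ η * N :=
      (tendsto_natCast_atTop_atTop.const_mul_atTop hη0).eventually_ge_atTop _
    filter_upwards [hα, h6] with N hN hN2
    have h7 : (((Finset.range N).filter (fun n => ⌊α * x n⌋ ∈ B)).card : ℝ) ≤
        n₀ + η * ∑ n ∈ Finset.range N, g ⌊α * x n⌋ ^ 1 := by
      have h8 : (Finset.range N).filter (fun n => ⌊α * x n⌋ ∈ B) ⊆ Finset.range n₀ ∪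
          (Finset.range N).filter (fun n => ⌊α * x n⌋ ∈ B ∧
            T < |((⌊α * x n⌋ : ℤ) : ℝ)|) := by
        intro n hn
        rw [Finset.mem_filter] at hn
        rw [Finset.mem_union, Finset.mem_range, Finset.mem_filter]
        rcases lt_or_ge n n₀ with h9 | h9
        · exact Or.inl h9
        · exact Or.inr ⟨hn.1, hn.2, hn₀ n h9⟩
      have h9 := (Finset.card_le_card h8).trans (Finset.card_union_le _ _)
      rw [Finset.card_range] at h9
      have h10 : (((Finset.range N).filter (fun n => ⌊α * x n⌋ ∈ B ∧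
          T < |((⌊α * x n⌋ : ℤ) : ℝ)|)).card : ℝ) =
          η * ∑ n ∈ Finset.range N, g ⌊α * x n⌋ ^ 1 := by
        rw [Finset.card_filter]
        push_cast
        rw [Finset.mul_sum]
        refine Finset.sum_congr rfl fun n _ => ?_
        rw [hg, pow_one]
        dsimp only
        rw [ind]
        split_ifs
        · field_simp
        · simp
      rw [← h10]
      exact_mod_cast h9
    have h11 : η * ∑ n ∈ Finset.range N, g ⌊α * x n⌋ ^ 1 ≤ η * ((2 * 1 + 1 + 1) * N) :=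
      mul_le_mul_of_nonneg_left hN hη0.le
    have h12 : 1 / ((m : ℝ) + 1) = 5 * η := by
      rw [hη]
      field_simp
    rw [h12]
    linarith
  have h0 : ∀ᵐ α : ℝ, α ≠ 0 := by
    rw [ae_iff]
    simp
  filter_upwards [ae_all_iff.2 key, h0] with α hα hα0 ε hε
  obtain ⟨m, hm⟩ := exists_nat_one_div_lt hε
  filter_upwards [hα m hα0] with N hN
  exact hN.trans (mul_le_mul_of_nonneg_right hm.le (Nat.cast_nonneg N))

end Pool.Agent.Q1.RS
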