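import Pool.Agent.Q1.RS.Udz

/-!
# Avoiding a set whose density is zero in all the short intervals
-/

set_option autoImplicit false

namespace Pool.Agent.Q1.RS

open Finset MeasureTheory Filter Topology Set

/-- **Full dimension from a counting bound in the windows of one exponent.** -/
theorem dim_cnt {f : ℤ → ℝ} {s k : ℕ} {C R δ : ℝ} (hδ : 0 < δ) (hk : 1 / δ ≤ k)
    (hC : ∀ a b y : ℝ, 0 < y → 3 ≤ b - a → |a| + 1 ≤ (b - a - 1) ^ (k + 2) →
      (((Finset.Ico ⌈a⌉ ⌈b⌉).filter (fun t => y ≤ f t)).card : ℝ) ≤ C / y ^ s * (b - a))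
    (hR : 0 < R) (hRs : 4 * C ≤ R ^ s) {u v : ℝ} (huv : u < v) :
    ∃ X₀ : ℝ, ∀ x : ℕ → ℝ, X₀ ≤ x 0 → (∀ n, x n ^ (1 + δ) ≤ x (n + 1)) →
      dimH {α : ℝ | u ≤ α ∧ α ≤ v ∧ ∀ n, f ⌊α * x n⌋ ≤ R} = 1 := by
  set W : ℝ := max |u| |v| with hW
  have hW0 : 0 ≤ W := le_trans (abs_nonneg u) (le_max_left _ _)
  have hWw : ∀ w, u ≤ w → w ≤ v → |w| ≤ W := fun w h1 h2 => by
    rw [hW, abs_le]
    constructor
    · have := neg_abs_le u
      have := le_max_left |u| |v|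
      linarith
    · have := le_abs_self v
      have := le_max_right |u| |v|
      linarith
  have hvu : 0 < v - u := by linarith
  set ρ₀ : ℝ := 4 ^ (k + 2) * (W + 1) + 16 with hρ₀
  have hρ₀16 : 16 ≤ ρ₀ := by rw [hρ₀]; nlinarith [pow_pos (show (0 : ℝ) < 4 by norm_num) (k + 2)]
  refine ⟨max (max 2 (ρ₀ ^ (1 / δ))) (max (16 / (v - u)) (16 * (W + 1) / (v - u) ^ 2)),
    fun x hX hx => ?_⟩
  have hX2 : 2 ≤ x 0 := le_trans (le_trans (le_max_left _ _) (le_max_left _ _)) hX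
  have hXρ : ρ₀ ^ (1 / δ) ≤ x 0 := le_trans (le_trans (le_max_right _ _) (le_max_left _ _)) hX
  have hX16 : 16 / (v - u) ≤ x 0 := le_trans (le_trans (le_max_left _ _) (le_max_right _ _)) hX
  have hXW : 16 * (W + 1) / (v - u) ^ 2 ≤ x 0 :=
    le_trans (le_trans (le_max_right _ _) (le_max_right _ _)) hX
  have hx0 : 1 < x 0 := by linarith
  have hx1 : ∀ n, 1 < x n := one_lt_x hδ hx0 hx
  have hmono : ∀ n, x 0 ≤ x n := by
    intro n
    refine le_trans ?_ (growth hδ hx0 hx n)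
    calc x 0 = x 0 ^ (1 : ℝ) := (Real.rpow_one _).symm
      _ ≤ _ := Real.rpow_le_rpow_of_exponent_le hx0.le (one_le_pow₀ (by linarith))
  have hρδ : ∀ n, ρ₀ ≤ x n ^ δ := by
    intro n
    calc ρ₀ = (ρ₀ ^ (1 / δ)) ^ δ := by
          rw [← Real.rpow_mul (by linarith), one_div, inv_mul_cancel₀ hδ.ne', Real.rpow_one]
      _ ≤ x 0 ^ δ := Real.rpow_le_rpow (by positivity) hXρ hδ.le
      _ ≤ _ := Real.rpow_le_rpow (by linarith) (hmono n) hδ.le
  have hrat : ∀ n, ρ₀ ≤ x (n + 1) / x n := fun n =>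
    (hρδ n).trans (le_ratio hδ (hx1 n) (hx n) hk).1
  have h16 : ∀ n, 16 * x n ≤ x (n + 1) := fun n => by
    have h1 := hρ₀16.trans (hrat n)
    rwa [le_div_iff₀ (by linarith [hx1 n])] at h1
  have hvx : 16 ≤ (v - u) * x 0 := by
    rw [div_le_iff₀ hvu] at hX16
    linarith
  refine dim_one_of_windows (G := {t | f t ≤ R}) hδ hx0 hx huv h16 hvx ?_ ?_
  · intro w hw hwv
    have hρ : 8 ≤ (v - u) * x 0 := by linarith
    have ha : |w * x 0| + 1 ≤ ((v - u) * x 0 / 4) ^ (k + 2) := by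
      have e1 : |w * x 0| ≤ W * x 0 := by
        rw [abs_mul, abs_of_pos (show 0 < x 0 by linarith)]
        exact mul_le_mul_of_nonneg_right (hWw w hw (by linarith)) (by linarith)
      have e2 : W * x 0 + 1 ≤ ((v - u) * x 0 / 4) ^ 2 := by
        rw [div_le_iff₀ (by positivity)] at hXW
        nlinarith
      exact (add_le_add_left e1 1).trans (e2.trans
        (pow_le_pow_right₀ (by linarith) (by omega)))
    obtain ⟨S, hS, hc⟩ := window hC hR hRs hρ ha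
    refine ⟨S, fun t ht => ?_, hc⟩
    obtain ⟨e1, e2, e3⟩ := hS t ht
    exact ⟨e1, e2, le_trans e3 (le_of_eq (by ring))⟩
  · intro n w hw hwv
    have hxn : 0 < x n := by linarith [hx1 n]
    have hxn1 : 0 < x (n + 1) := by linarith [hx1 (n + 1)]
    set ρ : ℝ := x (n + 1) / x n with hρd
    have hρ : ρ₀ ≤ ρ := hrat n
    have hr := (le_ratio hδ (hx1 n) (hx n) hk).2
    have ha : |w * x (n + 1)| + 1 ≤ (ρ / 4) ^ (k + 2) := by
      have e1 : |w * x (n + 1)| ≤ W * ρ ^ (k + 1) := by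
        rw [abs_mul, abs_of_pos hxn1]
        refine mul_le_mul (hWw w hw ?_) hr hxn1.le hW0
        have : 0 < 1 / (2 * x n) := by positivity
        linarith
      have e2 : (1 : ℝ) ≤ ρ ^ (k + 1) := one_le_pow₀ (by linarith)
      have e3 : (ρ / 4) ^ (k + 2) = ρ ^ (k + 1) * (ρ / 4 ^ (k + 2)) := by
        rw [div_pow, pow_succ ρ (k + 1)]
        ring
      have e4 : W + 1 ≤ ρ / 4 ^ (k + 2) := by
        rw [le_div_iff₀ (by positivity)]
        linarith
      rw [e3]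
      nlinarith
    obtain ⟨S, hS, hc⟩ := window hC hR hRs (by linarith) ha
    refine ⟨S, fun t ht => ?_, le_trans (le_of_eq ?_) hc⟩
    · obtain ⟨e1, e2, e3⟩ := hS t ht
      refine ⟨e1, e2, le_trans e3 (le_of_eq ?_)⟩
      rw [hρd]
      field_simp
    · rw [hρd]
      field_simp

/-- **All the terms outside of a set of uniform density zero: full dimension.** -/
theorem UDZ.dim {B : Set ℤ} (h : UDZ B) {δ : ℝ} (hδ : 0 < δ) {u v : ℝ} (huv : u < v) :
    ∃ X₀ : ℝ, ∀ x : ℕ → ℝ, X₀ ≤ x 0 → (∀ n, x n ^ (1 + δ) ≤ x (n + 1)) →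
      dimH {α : ℝ | u ≤ α ∧ α ≤ v ∧ ∀ n, ⌊α * x n⌋ ∉ B} = 1 := by
  classical
  obtain ⟨k, hk⟩ := exists_nat_ge (1 / δ)
  obtain ⟨T, hT⟩ := h.sum (k + 2) (show (0 : ℝ) < 1 / 8 by norm_num)
  have hC : ∀ a b y : ℝ, 0 < y → 3 ≤ b - a → |a| + 1 ≤ (b - a - 1) ^ (k + 2) →
      (((Finset.Ico ⌈a⌉ ⌈b⌉).filter (fun t => y ≤ ind B T t)).card : ℝ) ≤
        1 / 8 / y ^ 1 * (b - a) := by
    intro a b y hy hab ha
    have h1 := hT a b hab ha
    rw [pow_one, div_mul_eq_mul_div, le_div_iff₀ hy]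
    refine le_trans ?_ h1
    rw [← nsmul_eq_mul]
    exact le_trans (Finset.card_nsmul_le_sum _ (ind B T) _ fun t ht => (Finset.mem_filter.1 ht).2)
      (Finset.sum_le_sum_of_subset_of_nonneg (Finset.filter_subset _ _) fun t _ _ =>
        ind_nonneg B T t)
  obtain ⟨u', v', c, h1, h2, h3, hc, h4⟩ := exists_sub huv
  obtain ⟨X₁, hX₁⟩ := dim_cnt (R := 1 / 2) hδ hk hC (by norm_num) (by norm_num) h2
  refine ⟨max (max X₁ 2) ((|T| + 2) / c), fun x hx0 hx => ?_⟩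
  have hx1 : X₁ ≤ x 0 := le_trans (le_trans (le_max_left _ _) (le_max_left _ _)) hx0
  have hx2 : 2 ≤ x 0 := le_trans (le_trans (le_max_right _ _) (le_max_left _ _)) hx0
  have hx3 : (|T| + 2) / c ≤ x 0 := le_trans (le_max_right _ _) hx0
  have hmono : ∀ n, x 0 ≤ x n := by
    intro n
    refine le_trans ?_ (growth hδ (by linarith) hx n)
    calc x 0 = x 0 ^ (1 : ℝ) := (Real.rpow_one _).symm
      _ ≤ _ := Real.rpow_le_rpow_of_exponent_le (by linarith) (one_le_pow₀ (by linarith))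
  refine le_antisymm ((dimH_mono (subset_univ _)).trans (by rw [Real.dimH_univ])) ?_
  rw [← hX₁ x hx1 hx]
  refine dimH_mono fun α hα => ?_
  obtain ⟨e1, e2, e3⟩ := hα
  refine ⟨h1.trans e1, e2.trans h3, fun n hmem => ?_⟩
  have e5 := h4 α e1 e2
  have e6 : |T| + 2 ≤ |α * x n| := by
    rw [div_le_iff₀ hc] at hx3
    rw [abs_mul, abs_of_pos (show 0 < x n by linarith [hmono n])]
    calc |T| + 2 ≤ x 0 * c := hx3
      _ = c * x 0 := mul_comm _ _
      _ ≤ |α| * x n := mul_le_mul e5 (hmono n) (by linarith) (abs_nonneg _)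
  have e7 := Int.floor_le (α * x n)
  have e8 := Int.lt_floor_add_one (α * x n)
  have e9 : |α * x n| - 1 ≤ |((⌊α * x n⌋ : ℤ) : ℝ)| := by
    rcases le_or_gt 0 (α * x n) with h6 | h6
    · rw [abs_of_nonneg h6]
      exact le_trans (by linarith) (le_abs_self _)
    · rw [abs_of_neg h6]
      exact le_trans (by linarith) (neg_le_abs _)
  have e10 := e3 n
  rw [ind, if_pos ⟨hmem, by linarith [le_abs_self T]⟩] at e10
  norm_num at e10

end Pool.Agent.Q1.RS
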